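import Mathlib

/-!
# Project BX: a bounded kernel whose Bergman extremal function is not in `BMOA`
(disproof of Q1 of MP_7d928b_an, `p = 4/3`).  Statements of the packages.
-/

set_option autoImplicit false

namespace Pool.Agent.U209.BX

open Polynomial Complex Finset Filter Topology MeasureTheory ComplexConjugate Metric

/-! ## Definitions of the problem (the text of the starting file KernelBMOA) -/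

/-- area measure on the unit disc -/
noncomputable def dA : Measure ℂ := volume.restrict (ball (0:ℂ) 1)

/-- the Bergman space `A^r`: `f` is analytic in the disc and `∫ |f|^r dA < ∞` -/
def InBergman (r : ℝ) (f : ℂ → ℂ) : Prop :=
  DifferentiableOn ℂ f (ball 0 1) ∧ Integrable (fun z => ‖f z‖ ^ r) dA

/-- the norm of `A^r` -/
noncomputable def bergmanNorm (r : ℝ) (f : ℂ → ℂ) : ℝ := (∫ z, ‖f z‖ ^ r ∂dA) ^ (1 / r)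

/-- the functional `f ↦ ∫ f k̄ dA` with kernel `k` -/
noncomputable def functional (k f : ℂ → ℂ) : ℂ := ∫ z, f z * conj (k z) ∂dA

/-- `F` is the `A^p` extremal function for the kernel `k`: it maximises `Re ∫ f k̄ dA` over all
`f ∈ A^p` of norm one -/
def IsExtremal (p : ℝ) (k F : ℂ → ℂ) : Prop :=
  InBergman p F ∧ bergmanNorm p F = 1 ∧
    ∀ f, InBergman p f → bergmanNorm p f = 1 → (functional k f).re ≤ (functional k F).re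

/-- `b`, a function of the angle, is the boundary function of `k`: it is `2π`-periodic, square
integrable over a period, and `k(re^{iθ}) → b(θ)` in `L²` as `r → 1⁻` -/
structure IsBoundaryFunction (k : ℂ → ℂ) (b : ℝ → ℂ) : Prop where
  periodic : Function.Periodic b (2 * Real.pi)
  memLp : MemLp b 2 (volume.restrict (Set.Ioc 0 (2 * Real.pi)))
  lim : Tendsto (fun r : ℝ => ∫ θ in (0:ℝ)..(2 * Real.pi),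
    ‖k (r * exp (θ * I)) - b θ‖ ^ 2) (𝓝[<] 1) (𝓝 0)

/-- the mean of `b` over the arc `{e^{iθ} : α < θ < β}` -/
noncomputable def arcMean (b : ℝ → ℂ) (α β : ℝ) : ℂ := (((β - α)⁻¹ : ℝ) : ℂ) * ∫ θ in α..β, b θ

/-- `b` (a `2π`-periodic function of the angle) has bounded mean oscillation on the unit circle -/
def HasBoundedMeanOscillation (b : ℝ → ℂ) : Prop :=
  IntervalIntegrable b volume 0 (2 * Real.pi) ∧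
  ∃ C : ℝ, ∀ α β : ℝ, α < β → β - α ≤ 2 * Real.pi →
    (β - α)⁻¹ * ∫ θ in α..β, ‖b θ - arcMean b α β‖ ≤ C

/-- `BMOA`: functions of the Hardy space `H²` whose boundary values have bounded mean
oscillation -/
def InBMOA (k : ℂ → ℂ) : Prop :=
  DifferentiableOn ℂ k (ball 0 1) ∧
  (∃ C : ℝ, ∀ r : ℝ, 0 < r → r < 1 →
    ∫ θ in (0:ℝ)..(2 * Real.pi), ‖k (r * exp (θ * I))‖ ^ 2 ≤ C) ∧
  ∃ b : ℝ → ℂ, IsBoundaryFunction k b ∧ HasBoundedMeanOscillation b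

/-- the theorem -/
def S_MAIN : Prop := ∃ k F : ℂ → ℂ, InBergman 4 k ∧ (∃ z ∈ ball (0:ℂ) 1, k z ≠ 0) ∧
  IsExtremal (4 / 3) k F ∧ (∃ M : ℝ, ∀ z ∈ ball (0:ℂ) 1, ‖k z‖ ≤ M) ∧ ¬ InBMOA F

/-! ## Polynomials without zeros and their kernels -/

/-- the point `e^{iθ}` -/
noncomputable def ex (θ : ℝ) : ℂ := Complex.exp (θ * I)

/-- the polynomial has no zero in the closed unit disc -/
def ZF (u : ℂ[X]) : Prop := ∀ z : ℂ, ‖z‖ ≤ 1 → u.eval z ≠ 0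

/-- the function `1 / u ^ 3` (it will be a multiple of an extremal function) -/
noncomputable def Fn (u : ℂ[X]) (z : ℂ) : ℂ := ((u.eval z) ^ 3)⁻¹

/-- Taylor coefficients of `1 / u ^ 2` at `0` -/
noncomputable def gco (u : ℂ[X]) (b : ℕ) : ℂ :=
  PowerSeries.coeff b (((u : PowerSeries ℂ)⁻¹) ^ 2)

/-- coefficients of the Bergman projection of `conj u / u ^ 2` -/
noncomputable def Kc (u : ℂ[X]) (n : ℕ) : ℂ :=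
  ∑ a ∈ range (u.natDegree + 1),
    conj (u.coeff a) * gco u (n + a) * (((n : ℂ) + 1) / ((n : ℂ) + a + 1))

/-- the Bergman projection of `conj u / u ^ 2` -/
noncomputable def K (u : ℂ[X]) (z : ℂ) : ℂ := ∑' n, Kc u n * z ^ n

/-- COEF: the Taylor series of `1 / u ^ 2` -/
def S_COEF : Prop := ∀ u : ℂ[X], ZF u →
  (∃ C ρ : ℝ, 1 < ρ ∧ ∀ b, ‖gco u b‖ ≤ C * (ρ⁻¹) ^ b) ∧
  (∀ z : ℂ, ‖z‖ ≤ 1 → HasSum (fun b => gco u b * z ^ b) ((u.eval z) ^ 2)⁻¹)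

/-- KK: properties of `K u` -/
def S_KK : Prop := ∀ u : ℂ[X], ZF u →
  (∃ C ρ : ℝ, 1 < ρ ∧ ∀ n, ‖Kc u n‖ ≤ C * (ρ⁻¹) ^ n) ∧
  (∀ C : ℝ, (∀ z : ℂ, ‖z‖ = 1 → ‖K u z‖ ≤ C) →
    (∀ z : ℂ, ‖z‖ ≤ 1 → ‖K u z‖ ≤ C) ∧ ∀ n, ‖Kc u n‖ ≤ C) ∧
  (∀ n : ℕ, ∫ z in ball (0:ℂ) 1, conj z ^ n * (conj (u.eval z) / (u.eval z) ^ 2) =
    ((Real.pi / (n + 1) : ℝ) : ℂ) * Kc u n)

/-- EXP: expansion of `1 / (u + z ^ Q v) ^ 2` in powers of `z ^ Q` -/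
def S_EXP : Prop := ∀ u v : ℂ[X], ZF u → (∀ z : ℂ, ‖z‖ = 1 → 3 * ‖v.eval z‖ ≤ ‖u.eval z‖) →
  (∀ Q : ℕ, ZF (u + X ^ Q * v)) ∧
  ∃ (h : ℕ → ℕ → ℂ) (C ρ : ℝ), 1 < ρ ∧
    (∀ m i, ‖h m i‖ ≤ C * (2⁻¹) ^ m * (ρ⁻¹) ^ i) ∧
    (∀ (m : ℕ) (z : ℂ), ‖z‖ ≤ 1 → HasSum (fun i => h m i * z ^ i)
      ((-1) ^ m * ((m : ℂ) + 1) * (v.eval z) ^ m * ((u.eval z) ^ (m + 2))⁻¹)) ∧
    (∀ Q : ℕ, 1 ≤ Q → ∀ b, gco (u + X ^ Q * v) b =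
      ∑ m ∈ range (b + 1), if Q * m ≤ b then h m (b - Q * m) else 0)

/-- LIM: the effect of adding a term of high frequency -/
def S_LIM : Prop := ∀ u v : ℂ[X], ZF u → (∀ z : ℂ, ‖z‖ = 1 → 3 * ‖v.eval z‖ ≤ ‖u.eval z‖) →
  ∀ ε : ℝ, 0 < ε → ∃ Q0 : ℕ, ∀ Q : ℕ, Q0 ≤ Q → ∀ z : ℂ, ‖z‖ = 1 →
    ‖K (u + X ^ Q * v) z - K u z +
        2 * conj (u.eval z) / (u.eval z) ^ 3 * (z ^ Q * v.eval z)‖ ≤
      20 * ‖v.eval z‖ ^ 2 / ‖u.eval z‖ ^ 3 + ε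

/-- OSC: the first Fourier coefficient of `1 / (c + b e^{iφ}) ^ 3` -/
def S_OSC : Prop := ∀ c b : ℂ, 2 * ‖b‖ ≤ ‖c‖ → c ≠ 0 →
  ∫ φ in (0:ℝ)..(2 * Real.pi), ((c + b * ex φ) ^ 3)⁻¹ * ex (-φ) = 2 * Real.pi * (-3 * b / c ^ 4)

/-- STEP: one step of the construction -/
def S_STEP : Prop := ∀ u : ℂ[X], ZF u → ∀ z0 : ℂ, ‖z0‖ = 1 → ∀ b : ℂ, 8 * ‖b‖ ≤ ‖u.eval z0‖ →
  ∀ ε : ℝ, 0 < ε → ∃ (u' : ℂ[X]) (z1 : ℂ) (q : ℕ) (α : ℝ), 0 < q ∧ ‖z1‖ = 1 ∧ ZF u' ∧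
    ‖u'.eval z1 - (u.eval z0 + b)‖ ≤ ε ∧
    ‖K u' z1 - K u z0 + 2 * conj (u.eval z0) / (u.eval z0) ^ 3 * b‖ ≤
      20 * ‖b‖ ^ 2 / ‖u.eval z0‖ ^ 3 + ε ∧
    (∀ z : ℂ, ‖z‖ = 1 → ‖K u' z‖ ≤ max ‖K u z‖
      (‖K u z0‖ + 2 * ‖b‖ / ‖u.eval z0‖ ^ 2 + 20 * ‖b‖ ^ 2 / ‖u.eval z0‖ ^ 3) + ε) ∧
    (∫ θ in (0:ℝ)..(2 * Real.pi), ‖Fn u' (ex θ) - Fn u (ex θ)‖ ^ 2) ≤ ε ∧
    ‖(q : ℂ) * (∫ θ in α..(α + 2 * Real.pi / q), Fn u' (ex θ) * ex (-(q * θ))) -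
      2 * Real.pi * (-3 * b / (u.eval z0) ^ 4)‖ ≤ ε

/-- the polynomial `z ^ N |(1 + z conj z0) / 2| ^ (2N)` (on the circle) -/
noncomputable def bump (z0 : ℂ) (N : ℕ) : ℂ[X] :=
  (C (1 / 2) * (1 + C (conj z0) * X)) ^ N * (C (1 / 2) * (X + C z0)) ^ N

/-- BUMP: properties of the bumps -/
def S_BUMP : Prop :=
  (∀ (z0 z : ℂ) (N : ℕ), ‖z0‖ = 1 → ‖z‖ = 1 →
    (bump z0 N).eval z = z ^ N * (((‖1 + z * conj z0‖ / 2) ^ (2 * N) : ℝ) : ℂ) ∧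
    (‖1 + z * conj z0‖ / 2) ^ (2 * N) ≤ 1) ∧
  (∀ δ η : ℝ, 0 < δ → 0 < η → ∃ N0 : ℕ, ∀ N : ℕ, N0 ≤ N → ∀ z0 z : ℂ, ‖z0‖ = 1 → ‖z‖ = 1 →
    δ ≤ ‖z - z0‖ → (‖1 + z * conj z0‖ / 2) ^ (2 * N) ≤ η)

/-- STA: the choice of the bump -/
def S_STA : Prop := ∀ u : ℂ[X], ZF u → ∀ z0 : ℂ, ‖z0‖ = 1 → ∀ b : ℂ, 8 * ‖b‖ ≤ ‖u.eval z0‖ →
  ∀ ε : ℝ, 0 < ε → ∃ N : ℕ,
    (∀ z : ℂ, ‖z‖ = 1 → 3 * ‖(C b * bump z0 N).eval z‖ ≤ ‖u.eval z‖) ∧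
    (∀ z : ℂ, ‖z‖ = 1 → ‖K u z‖ + 2 * ‖(C b * bump z0 N).eval z‖ / ‖u.eval z‖ ^ 2 +
        20 * ‖(C b * bump z0 N).eval z‖ ^ 2 / ‖u.eval z‖ ^ 3 ≤ max ‖K u z‖
      (‖K u z0‖ + 2 * ‖b‖ / ‖u.eval z0‖ ^ 2 + 20 * ‖b‖ ^ 2 / ‖u.eval z0‖ ^ 3) + ε) ∧
    (∀ Q : ℕ, (∫ θ in (0:ℝ)..(2 * Real.pi),
      ‖Fn (u + X ^ Q * (C b * bump z0 N)) (ex θ) - Fn u (ex θ)‖ ^ 2) ≤ ε)

/-- STB: the next point of the circle -/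
def S_STB : Prop := ∀ u : ℂ[X], ZF u → ∀ z0 : ℂ, ‖z0‖ = 1 → ∀ (b : ℂ) (N : ℕ),
  ∀ ε : ℝ, 0 < ε → ∃ Q0 : ℕ, ∀ Q : ℕ, Q0 ≤ Q → ∃ z1 : ℂ, ‖z1‖ = 1 ∧
    ‖(u + X ^ Q * (C b * bump z0 N)).eval z1 - (u.eval z0 + b)‖ ≤ ε ∧
    ‖K u z1 - K u z0‖ ≤ ε ∧
    ‖2 * conj (u.eval z1) / (u.eval z1) ^ 3 * (z1 ^ Q * (C b * bump z0 N).eval z1) -
      2 * conj (u.eval z0) / (u.eval z0) ^ 3 * b‖ ≤ ε ∧
    20 * ‖(C b * bump z0 N).eval z1‖ ^ 2 / ‖u.eval z1‖ ^ 3 ≤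
      20 * ‖b‖ ^ 2 / ‖u.eval z0‖ ^ 3 + ε

/-- STC: oscillation over one period -/
def S_STC : Prop := ∀ u : ℂ[X], ZF u → ∀ z0 : ℂ, ‖z0‖ = 1 → ∀ b : ℂ, 8 * ‖b‖ ≤ ‖u.eval z0‖ →
  ∀ N : ℕ, ∀ ε : ℝ, 0 < ε → ∃ Q0 : ℕ, ∀ Q : ℕ, Q0 ≤ Q → ∃ (q : ℕ) (α : ℝ), 0 < q ∧
    ‖(q : ℂ) * (∫ θ in α..(α + 2 * Real.pi / q),
        Fn (u + X ^ Q * (C b * bump z0 N)) (ex θ) * ex (-(q * θ))) -
      2 * Real.pi * (-3 * b / (u.eval z0) ^ 4)‖ ≤ ε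

/-! ## The path -/

/-- the sum which approximates the change of `-K/2` along a chain of values of `u` -/
noncomputable def chainSum (y : ℕ → ℂ) (J : ℕ) : ℂ :=
  ∑ j ∈ range J, conj (y j) / (y j) ^ 3 * (y (j + 1) - y j)

/-- the second order terms along a chain -/
noncomputable def chainErr (y : ℕ → ℂ) (J : ℕ) : ℝ :=
  ∑ j ∈ range J, ‖y (j + 1) - y j‖ ^ 2 / ‖y j‖ ^ 3

/-- CURVE: fine subdivisions of a curve -/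
def S_CURVE : Prop := ∀ y y' : ℝ → ℂ, Continuous y' → (∀ t, HasDerivAt y (y' t) t) →
  (∀ t, y t ≠ 0) → ∀ δ : ℝ, 0 < δ → ∃ n : ℕ, 0 < n ∧
    (∀ j : ℕ, j < n → 16 * ‖y ((j + 1 : ℕ) / n) - y (j / n)‖ ≤ ‖y (j / n)‖) ∧
    chainErr (fun j => y (j / n)) n ≤ δ ∧
    ∀ J : ℕ, J ≤ n → ‖chainSum (fun j => y (j / n)) J -
      ∫ t in (0:ℝ)..(J / n), conj (y t) / (y t) ^ 3 * y' t‖ ≤ δ

/-- a finite chain from `a` to `b` whose partial sums stay in the disc of radius `r`, whose sum is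
`μ` up to `δ`, with second order terms at most `δ` -/
def Link (a b : ℂ) (r δ : ℝ) (μ : ℂ) : Prop := ∃ (n : ℕ) (Y : ℕ → ℂ), Y 0 = a ∧ Y n = b ∧
  (∀ j, j ≤ n → Y j ≠ 0) ∧ (∀ j, j < n → 16 * ‖Y (j + 1) - Y j‖ ≤ ‖Y j‖) ∧
  (∀ J, J ≤ n → ‖chainSum Y J‖ ≤ r) ∧ ‖chainSum Y n - μ‖ ≤ δ ∧ chainErr Y n ≤ δ

/-- RAD: radial moves of `w = 1 / y` -/
def S_RAD : Prop := ∀ (w : ℂ) (ρ δ : ℝ), w ≠ 0 → 0 < ρ → 0 < δ →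
  Link w⁻¹ (w * ρ)⁻¹ (‖w‖ * |ρ - 1| + δ) δ (-(w ^ 2 / conj w) * (ρ - 1))

/-- ROT: rotations of `w = 1 / y` -/
def S_ROT : Prop := ∀ (w : ℂ) (β δ : ℝ), w ≠ 0 → 0 < δ →
  Link w⁻¹ (w * ex β)⁻¹ (‖w‖ * |β| + δ) δ (-(w ^ 2 / conj w) * ((ex (3 * β) - 1) / 3))

/-- TRANS: composition of chains -/
def S_TRANS : Prop := ∀ (a b c : ℂ) (r r' δ δ' : ℝ) (μ μ' : ℂ), Link a b r δ μ →
  Link b c r' δ' μ' → Link a c (max r (‖μ‖ + δ + r')) (δ + δ') (μ + μ')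

/-- ITER: composition of many chains with sum zero -/
def S_ITER : Prop := ∀ (a : ℕ → ℂ) (n : ℕ) (r δ : ℝ), 0 < n → 0 ≤ δ →
  (∀ k, k < n → Link (a k) (a (k + 1)) r δ 0) → Link (a 0) (a n) (r + n * δ) (n * δ) 0

/-- the points `(n + 5) e^{iπn/3}` (values of `1 / u` at the beginning of the stages) -/
noncomputable def W (n : ℕ) : ℂ := ((n : ℂ) + 5) * ex (Real.pi * n / 3)

/-- the value of `1 / u` after the large step of stage `n` -/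
noncomputable def W' (n : ℕ) : ℂ := W n * (1 + 1 / ((n : ℂ) + 5) ^ 2)

/-- STAGE: one stage of the path, after its large step -/
def S_STAGE : Prop := ∀ (n : ℕ) (δ : ℝ), 0 < δ → Link (W' n)⁻¹ (W (n + 1))⁻¹ 20 δ
  (-(-1) ^ n * (1 - 1 / ((n : ℂ) + 5)))

/-- PATH: the path -/
def S_PATH : Prop := ∃ (y : ℕ → ℂ) (C : ℝ), (∀ j, y j ≠ 0) ∧
  (∀ j, 16 * ‖y (j + 1) - y j‖ ≤ ‖y j‖) ∧ (∀ J, ‖chainSum y J‖ ≤ C) ∧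
  (∀ J, chainErr y J ≤ C) ∧ (∀ A : ℝ, ∃ j, A ≤ ‖y (j + 1) - y j‖ / ‖y j‖ ^ 4)

/-! ## The sequence and its limit -/

/-- the sequence of polynomials -/
def Good (u : ℕ → ℂ[X]) (C : ℝ) (d : ℕ → ℝ) : Prop :=
  (∀ j, ZF (u j)) ∧ (∀ (j : ℕ) (z : ℂ), ‖z‖ = 1 → ‖K (u j) z‖ ≤ C) ∧
  (∀ j, 0 ≤ d j) ∧ Summable d ∧
  (∀ j, (∫ θ in (0:ℝ)..(2 * Real.pi), ‖Fn (u (j + 1)) (ex θ) - Fn (u j) (ex θ)‖ ^ 2) ≤ (d j) ^ 2) ∧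
  (∀ A : ℝ, ∃ (j q : ℕ) (α : ℝ), 0 < q ∧
    A ≤ ‖(q : ℂ) * ∫ θ in α..(α + 2 * Real.pi / q), Fn (u j) (ex θ) * ex (-(q * θ))‖ ∧
    q * (∑' l, d (l + j)) ≤ 1)

/-- CONS: construction of the sequence -/
def S_CONS : Prop := ∃ (u : ℕ → ℂ[X]) (C : ℝ) (d : ℕ → ℝ), Good u C d

/-- what the limit function satisfies -/
def IsLim (u : ℕ → ℂ[X]) (d : ℕ → ℝ) (F : ℂ → ℂ) : Prop :=
  DifferentiableOn ℂ F (ball 0 1) ∧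
  (∀ z ∈ ball (0:ℂ) 1, Tendsto (fun j => Fn (u j) z) atTop (𝓝 (F z))) ∧
  (∀ (j : ℕ) (r : ℝ), 0 < r → r < 1 →
    (∫ θ in (0:ℝ)..(2 * Real.pi), ‖F (r * ex θ) - Fn (u j) (r * ex θ)‖ ^ 2) ≤
      (∑' l, d (l + j)) ^ 2)

/-- LIMF: the limit function -/
def S_LIMF : Prop := ∀ (u : ℕ → ℂ[X]) (C : ℝ) (d : ℕ → ℝ), Good u C d → ∃ F : ℂ → ℂ, IsLim u d F

/-- AREA: area integrals of the limit function -/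
def S_AREA : Prop := ∀ (u : ℕ → ℂ[X]) (C : ℝ) (d : ℕ → ℝ) (F : ℂ → ℂ), Good u C d → IsLim u d F →
  IntegrableOn (fun z => ‖F z‖ ^ 2) (ball (0:ℂ) 1) ∧
  Tendsto (fun j => ∫ z in ball (0:ℂ) 1, ‖F z - Fn (u j) z‖ ^ 2) atTop (𝓝 0)

/-- LIMK: the kernel of the limit function -/
def S_LIMK : Prop := ∀ (u : ℕ → ℂ[X]) (C : ℝ) (d : ℕ → ℝ) (F : ℂ → ℂ), Good u C d →
  IsLim u d F → IntegrableOn (fun z => ‖F z‖ ^ 2) (ball (0:ℂ) 1) →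
  Tendsto (fun j => ∫ z in ball (0:ℂ) 1, ‖F z - Fn (u j) z‖ ^ 2) atTop (𝓝 0) →
  ∃ k : ℂ → ℂ, DifferentiableOn ℂ k (ball 0 1) ∧ (∀ z ∈ ball (0:ℂ) 1, ‖k z‖ ≤ C) ∧
    ∀ n : ℕ, ∫ z in ball (0:ℂ) 1, conj z ^ n * k z =
      ∫ z in ball (0:ℂ) 1, conj z ^ n * (((‖F z‖ ^ (-(2 / 3) : ℝ) : ℝ) : ℂ) * F z)

/-- EXT: the extremality relation implies extremality -/
def S_EXT : Prop := ∀ (F k : ℂ → ℂ) (C : ℝ), DifferentiableOn ℂ F (ball 0 1) →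
  DifferentiableOn ℂ k (ball 0 1) → IntegrableOn (fun z => ‖F z‖ ^ 2) (ball (0:ℂ) 1) →
  (∀ z ∈ ball (0:ℂ) 1, ‖k z‖ ≤ C) → (∃ z ∈ ball (0:ℂ) 1, F z ≠ 0) →
  (∀ n : ℕ, ∫ z in ball (0:ℂ) 1, conj z ^ n * k z =
      ∫ z in ball (0:ℂ) 1, conj z ^ n * (((‖F z‖ ^ (-(2 / 3) : ℝ) : ℝ) : ℂ) * F z)) →
  InBergman 4 k ∧ (∃ z ∈ ball (0:ℂ) 1, k z ≠ 0) ∧
    ∃ c : ℂ, c ≠ 0 ∧ IsExtremal (4 / 3) k (fun z => c * F z)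

/-- NB: the limit function is not in `BMOA` -/
def S_NB : Prop := ∀ (u : ℕ → ℂ[X]) (C : ℝ) (d : ℕ → ℝ) (F : ℂ → ℂ), Good u C d → IsLim u d F →
  ∀ c : ℂ, c ≠ 0 → ¬ InBMOA (fun z => c * F z)

end Pool.Agent.U209.BX
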