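import Pool.Agent.U209.BX.LimK

set_option autoImplicit false

namespace Pool.Agent.U209.BX

open Polynomial Complex Finset Filter Topology MeasureTheory ComplexConjugate Metric

/-- the extremality relation implies extremality -/
theorem ext (F k : ℂ → ℂ) (C : ℝ) (hF0d : DifferentiableOn ℂ F (ball 0 1))
    (hk : DifferentiableOn ℂ k (ball 0 1)) (hi : IntegrableOn (fun z => ‖F z‖ ^ 2) (ball (0:ℂ) 1))
    (hkC : ∀ z ∈ ball (0:ℂ) 1, ‖k z‖ ≤ C) (hne : ∃ z ∈ ball (0:ℂ) 1, F z ≠ 0)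
    (hrel : ∀ f : ℂ → ℂ, DifferentiableOn ℂ f (ball 0 1) →
        IntegrableOn (fun z => ‖f z‖ ^ ((4:ℝ) / 3)) (ball 0 1) →
        ∫ z in ball (0:ℂ) 1, k z * conj (f z) = ∫ z in ball (0:ℂ) 1, Ph (F z) * conj (f z)) :
    InBergman 4 k ∧ (∃ z ∈ ball (0:ℂ) 1, k z ≠ 0) ∧
      ∃ c : ℂ, c ≠ 0 ∧ IsExtremal (4 / 3) k (fun z => c * F z) := by
  have hfin := fin_ball
  have hfin' : IsFiniteMeasure dA := hfin
  have hae : ∀ᵐ z ∂dA, z ∈ ball (0:ℂ) 1 := ae_restrict_mem measurableSet_ball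
  have h1i : Integrable (fun _ : ℂ => (1:ℝ)) dA := integrable_const _
  have hp0 : (0:ℝ) < 4 / 3 := by norm_num
  have hpq : ((4:ℝ) / 3).HolderConjugate 4 := by
    rw [Real.holderConjugate_iff]; norm_num
  -- the power integrals of `F`
  have iF0 : Integrable (fun z => ‖F z‖ ^ ((4:ℝ) / 3)) dA := by
    apply Integrable.mono' (h1i.add hi)
    · apply ContinuousOn.aestronglyMeasurable _ measurableSet_ball
      exact (Real.continuous_rpow_const (by norm_num)).comp_continuousOn hF0d.continuousOn.norm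
    · apply Eventually.of_forall
      intro z
      rw [Real.norm_eq_abs, abs_of_nonneg (by positivity)]
      exact rpow_le_sq (norm_nonneg _)
  set J : ℝ := ∫ z, ‖F z‖ ^ ((4:ℝ) / 3) ∂dA with hJ
  have hJ0 : 0 < J := by
    obtain ⟨z0, hz0, hFz0⟩ := hne
    rw [hJ, integral_pos_iff_support_of_nonneg (fun z => by positivity) iF0]
    have hcont : ContinuousAt F z0 := hF0d.continuousOn.continuousAt (isOpen_ball.mem_nhds hz0)
    have hev : ∀ᶠ z in 𝓝 z0, F z ≠ 0 ∧ z ∈ ball (0:ℂ) 1 :=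
      (hcont.eventually_ne hFz0).and (isOpen_ball.mem_nhds hz0)
    obtain ⟨r, hr, hball⟩ := Metric.eventually_nhds_iff_ball.1 hev
    have hsub : ball z0 r ⊆ Function.support (fun z => ‖F z‖ ^ ((4:ℝ) / 3)) ∩ ball (0:ℂ) 1 := by
      intro z hz
      refine ⟨?_, (hball z hz).2⟩
      rw [Function.mem_support]
      have : 0 < ‖F z‖ := norm_pos_iff.2 (hball z hz).1
      positivity
    unfold dA
    rw [Measure.restrict_apply' measurableSet_ball]
    exact lt_of_lt_of_le (measure_ball_pos _ _ hr) (measure_mono hsub)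
  set N : ℝ := J ^ (1 / ((4:ℝ) / 3)) with hN
  have hN0 : 0 < N := Real.rpow_pos_of_pos hJ0 _
  have hNp : N ^ ((4:ℝ) / 3) = J := by
    rw [hN, ← Real.rpow_mul hJ0.le, one_div_mul_cancel hp0.ne', Real.rpow_one]
  set G : ℂ → ℂ := fun z => ((N⁻¹ : ℝ) : ℂ) * F z with hG
  have hGd : DifferentiableOn ℂ G (ball 0 1) := hF0d.const_mul _
  have nG : ∀ z, ‖G z‖ = N⁻¹ * ‖F z‖ := by
    intro z
    simp only [hG]
    rw [norm_mul, Complex.norm_real, Real.norm_eq_abs, abs_of_pos (inv_pos.2 hN0)]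
  have pG : ∀ z, ‖G z‖ ^ ((4:ℝ) / 3) = J⁻¹ * ‖F z‖ ^ ((4:ℝ) / 3) := by
    intro z
    rw [nG, Real.mul_rpow (inv_pos.2 hN0).le (norm_nonneg _), Real.inv_rpow hN0.le, hNp]
  have iG : InBergman (4 / 3) G := by
    refine ⟨hGd, ?_⟩
    simp only [pG]
    exact iF0.const_mul _
  have normG : bergmanNorm (4 / 3) G = 1 := by
    unfold bergmanNorm
    simp only [pG]
    rw [integral_const_mul, ← hJ, inv_mul_cancel₀ hJ0.ne', Real.one_rpow]
  have hfun : ∀ g : ℂ → ℂ, InBergman (4 / 3) g →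
      functional k g = conj (∫ z, Ph (F z) * conj (g z) ∂dA) := by
    intro g hg
    unfold functional
    have h1 := hrel g hg.1 hg.2
    have h2 : ∫ z, Ph (F z) * conj (g z) ∂dA = ∫ z, k z * conj (g z) ∂dA := h1.symm
    rw [h2, ← integral_conj]
    apply integral_congr_ae
    apply Eventually.of_forall
    intro z
    simp only [map_mul, Complex.conj_conj]
    ring
  have ePh : ∀ z, Ph (F z) * conj (F z) = ((‖F z‖ ^ ((4:ℝ) / 3) : ℝ) : ℂ) := by
    intro z
    unfold Ph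
    rw [mul_assoc, Complex.mul_conj']
    rcases eq_or_ne (F z) 0 with h | h
    · rw [h, norm_zero, Real.zero_rpow (by norm_num)]; simp
    · have hw : 0 < ‖F z‖ := norm_pos_iff.2 h
      rw [← Complex.ofReal_pow, ← Complex.ofReal_mul]
      congr 1
      rw [← Real.rpow_natCast, ← Real.rpow_add hw]
      norm_num
  have hfunG : functional k G = ((N ^ ((4:ℝ) / 3 - 1) : ℝ) : ℂ) := by
    rw [hfun G iG]
    have e1 : ∀ z, Ph (F z) * conj (G z) = ((N⁻¹ * ‖F z‖ ^ ((4:ℝ) / 3) : ℝ) : ℂ) := by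
      intro z
      simp only [hG]
      rw [map_mul, Complex.conj_ofReal, mul_left_comm, ePh]
      push_cast; ring
    simp only [e1]
    rw [integral_complex_ofReal, integral_const_mul, ← hJ, Complex.conj_ofReal, ← hNp]
    congr 1
    rw [Real.rpow_sub_one hN0.ne']
    field_simp
  have hfunle : ∀ g : ℂ → ℂ, InBergman (4 / 3) g → bergmanNorm (4 / 3) g = 1 →
      (functional k g).re ≤ N ^ ((4:ℝ) / 3 - 1) := by
    intro g hg hg1
    have hNN : 0 < N ^ ((4:ℝ) / 3 - 1) := Real.rpow_pos_of_pos hN0 _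
    have ig : Integrable (fun z => ‖g z‖ ^ ((4:ℝ) / 3)) dA := hg.2
    have ig0 : 0 ≤ ∫ z, ‖g z‖ ^ ((4:ℝ) / 3) ∂dA := integral_nonneg fun z => by positivity
    have ig1 : ∫ z, ‖g z‖ ^ ((4:ℝ) / 3) ∂dA = 1 := by
      unfold bergmanNorm at hg1
      have h2 : ((∫ z, ‖g z‖ ^ ((4:ℝ) / 3) ∂dA) ^ (1 / ((4:ℝ) / 3))) ^ ((4:ℝ) / 3) = 1 := by
        rw [hg1, Real.one_rpow]
      rwa [← Real.rpow_mul ig0, one_div_mul_cancel hp0.ne', Real.rpow_one] at h2
    rw [hfun g hg]
    refine (Complex.re_le_norm _).trans ?_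
    rw [RCLike.norm_conj]
    refine (norm_integral_le_integral_norm _).trans ?_
    have hpt : ∀ z, ‖Ph (F z) * conj (g z)‖ ≤
        N ^ ((4:ℝ) / 3 - 1) * ((J⁻¹ * ‖F z‖ ^ ((4:ℝ) / 3)) / 4 + ‖g z‖ ^ ((4:ℝ) / 3) / (4 / 3)) := by
      intro z
      rw [norm_mul, RCLike.norm_conj, Ph_norm]
      have h3 := Real.young_inequality_of_nonneg
        (show 0 ≤ (N ^ ((4:ℝ) / 3 - 1))⁻¹ * ‖F z‖ ^ ((1:ℝ) / 3) by positivity) (norm_nonneg (g z))
        hpq.symm
      have h4 : ((N ^ ((4:ℝ) / 3 - 1))⁻¹ * ‖F z‖ ^ ((1:ℝ) / 3)) ^ (4:ℝ) =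
          J⁻¹ * ‖F z‖ ^ ((4:ℝ) / 3) := by
        rw [Real.mul_rpow (by positivity) (by positivity), Real.inv_rpow hNN.le,
          ← Real.rpow_mul hN0.le, ← Real.rpow_mul (norm_nonneg _), ← hNp]
        norm_num
      rw [h4] at h3
      have h5 := mul_le_mul_of_nonneg_left h3 hNN.le
      refine le_trans (le_of_eq ?_) h5
      field_simp
    have hri : Integrable (fun z => N ^ ((4:ℝ) / 3 - 1) *
        ((J⁻¹ * ‖F z‖ ^ ((4:ℝ) / 3)) / 4 + ‖g z‖ ^ ((4:ℝ) / 3) / (4 / 3))) dA :=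
      (((iF0.const_mul _).div_const _).add (ig.div_const _)).const_mul _
    have hle := integral_mono_of_nonneg (Eventually.of_forall fun z => norm_nonneg
      (Ph (F z) * conj (g z))) hri (Eventually.of_forall hpt)
    refine hle.trans (le_of_eq ?_)
    rw [integral_const_mul, integral_add ((iF0.const_mul _).div_const _) (ig.div_const _),
      integral_div, integral_div, integral_const_mul, ← hJ, inv_mul_cancel₀ hJ0.ne', ig1]
    norm_num
  refine ⟨⟨hk, ?_⟩, ?_, ((N⁻¹ : ℝ) : ℂ), ?_, iG, normG, fun g hg hg1 => ?_⟩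
  · apply Integrable.mono' (g := fun _ => |C| ^ (4:ℝ)) (integrable_const _)
    · apply ContinuousOn.aestronglyMeasurable _ measurableSet_ball
      exact (Real.continuous_rpow_const (by norm_num)).comp_continuousOn hk.continuousOn.norm
    · filter_upwards [hae] with z hz
      rw [Real.norm_eq_abs, abs_of_nonneg (by positivity)]
      exact Real.rpow_le_rpow (norm_nonneg _) ((hkC z hz).trans (le_abs_self C)) (by norm_num)
  · by_contra hcon
    push Not at hcon
    have h0 : functional k G = 0 := by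
      unfold functional
      have : (fun z => G z * conj (k z)) =ᵐ[dA] fun _ => 0 := by
        filter_upwards [hae] with z hz
        rw [hcon z hz, map_zero, mul_zero]
      rw [integral_congr_ae this, integral_zero]
    rw [hfunG] at h0
    have : 0 < N ^ ((4:ℝ) / 3 - 1) := Real.rpow_pos_of_pos hN0 _
    exact this.ne' (by exact_mod_cast h0)
  · exact Complex.ofReal_ne_zero.2 (inv_pos.2 hN0).ne'
  · have : functional k (fun z => ((N⁻¹ : ℝ) : ℂ) * F z) = ((N ^ ((4:ℝ) / 3 - 1) : ℝ) : ℂ) := hfunG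
    rw [this, Complex.ofReal_re]
    exact hfunle g hg hg1

end Pool.Agent.U209.BX
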