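import Pool.Agent.U209.BX.Stm

set_option autoImplicit false

namespace Pool.Agent.U209.BX

open Polynomial Complex Finset Filter Topology MeasureTheory ComplexConjugate Metric

theorem t_OSC : S_OSC := by
  intro c b hb hc
  have hcn : 0 < ‖c‖ := norm_pos_iff.2 hc
  have hne : ∀ z : ℂ, ‖z‖ ≤ 1 → c + b * z ≠ 0 := by
    intro z hz h0
    have h1 : c = -(b * z) := eq_neg_of_add_eq_zero_left h0
    have h2 : ‖c‖ ≤ ‖b‖ * 1 := by
      rw [h1, norm_neg, norm_mul]
      exact mul_le_mul_of_nonneg_left hz (norm_nonneg _)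
    linarith
  set g : ℂ → ℂ := fun z => ((c + b * z) ^ 3)⁻¹ with hg
  have hder : ∀ z : ℂ, ‖z‖ ≤ 1 → HasDerivAt g (-3 * b / (c + b * z) ^ 4) z := by
    intro z hz
    have h1 : HasDerivAt (fun z : ℂ => c + b * z) b z := by
      simpa using ((hasDerivAt_id z).const_mul b).const_add c
    have h2 := (h1.pow 3).inv (pow_ne_zero _ (hne z hz))
    have h3 := hne z hz
    have h5 : -3 * b / (c + b * z) ^ 4 =
        -(((3:ℕ):ℂ) * (c + b * z) ^ (3 - 1) * b) / ((c + b * z) ^ 3) ^ 2 := by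
      push_cast
      field_simp
    rw [h5]
    exact h2
  have hdc : DiffContOnCl ℂ g (ball 0 1) := by
    apply DifferentiableOn.diffContOnCl
    rw [closure_ball (0:ℂ) one_ne_zero]
    intro z hz
    exact (hder z (mem_closedBall_zero_iff.1 hz)).differentiableAt.differentiableWithinAt
  have h1 := DiffContOnCl.circleIntegral_one_div_sub_center_pow_smul one_pos 1 hdc
  have h2 : deriv g 0 = -3 * b / c ^ 4 := by
    have := (hder 0 (by simp)).deriv
    simpa using this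
  rw [iteratedDeriv_one, h2, circleIntegral] at h1
  have h3 : ∫ θ in (0:ℝ)..(2 * Real.pi), deriv (circleMap 0 1) θ •
      ((1 / (circleMap 0 1 θ - 0) ^ (1 + 1)) • g (circleMap 0 1 θ)) =
      I * ∫ φ in (0:ℝ)..(2 * Real.pi), ((c + b * ex φ) ^ 3)⁻¹ * ex (-φ) := by
    rw [← intervalIntegral.integral_const_mul]
    congr 1
    ext φ
    have e1 : circleMap 0 1 φ = ex φ := by simp [circleMap, ex]
    have e2 : ex (-φ) = (ex φ)⁻¹ := by
      unfold ex
      rw [← Complex.exp_neg]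
      congr 1
      push_cast; ring
    have e3 : ex φ ≠ 0 := Complex.exp_ne_zero _
    rw [deriv_circleMap, e1, sub_zero, smul_eq_mul, smul_eq_mul, e2, hg]
    field_simp
  rw [h3] at h1
  have h4 : I * ∫ φ in (0:ℝ)..(2 * Real.pi), ((c + b * ex φ) ^ 3)⁻¹ * ex (-φ) =
      I * (2 * Real.pi * (-3 * b / c ^ 4)) := by
    rw [h1]; simp; ring
  exact mul_left_cancel₀ I_ne_zero h4

theorem t_BUMP : S_BUMP := by
  have hnorm2 : ∀ z0 z : ℂ, ‖z0‖ = 1 → ‖z‖ = 1 → ‖1 + z * conj z0‖ ^ 2 = 4 - ‖z - z0‖ ^ 2 := by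
    intro z0 z h0 h1
    have e1 : 1 + z * conj z0 = (z0 + z) * conj z0 := by
      have : z0 * conj z0 = 1 := by rw [Complex.mul_conj', h0]; simp
      rw [add_mul, this]
    have e2 : ‖1 + z * conj z0‖ = ‖z + z0‖ := by
      rw [e1, norm_mul, RCLike.norm_conj, h0, mul_one, add_comm]
    rw [e2]
    have := parallelogram_law_with_norm ℝ z z0
    rw [h0, h1] at this
    nlinarith
  have hle : ∀ z0 z : ℂ, ‖z0‖ = 1 → ‖z‖ = 1 → ‖1 + z * conj z0‖ / 2 ≤ 1 := by
    intro z0 z h0 h1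
    have h2 : ‖1 + z * conj z0‖ ≤ 2 := by
      refine (norm_add_le _ _).trans ?_
      rw [norm_one, norm_mul, RCLike.norm_conj, h0, h1]; norm_num
    linarith
  constructor
  · intro z0 z N h0 h1
    refine ⟨?_, pow_le_one₀ (by positivity) (hle z0 z h0 h1)⟩
    have hz : z * conj z = 1 := by rw [Complex.mul_conj', h1]; simp
    have e1 : z + z0 = z * conj (1 + z * conj z0) := by
      rw [map_add, map_one, map_mul, Complex.conj_conj, mul_add, mul_one, ← mul_assoc, hz, one_mul]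
    have e2 : ((‖1 + z * conj z0‖ / 2) ^ (2 * N) : ℝ) =
        ((‖1 + z * conj z0‖ ^ 2) / 4) ^ N := by
      rw [pow_mul, div_pow]; norm_num
    rw [e2]
    have e3 : (((‖1 + z * conj z0‖ ^ 2) / 4 : ℝ) : ℂ) =
        (1 + z * conj z0) * conj (1 + z * conj z0) / 4 := by
      rw [Complex.mul_conj']; push_cast; ring
    rw [Complex.ofReal_pow, e3]
    unfold bump
    simp only [Polynomial.eval_mul, Polynomial.eval_pow, Polynomial.eval_add, Polynomial.eval_one,
      Polynomial.eval_C, Polynomial.eval_X]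
    rw [e1, ← mul_pow, ← mul_pow]
    congr 1
    ring
  · intro δ η hδ hη
    by_cases hδ2 : δ ^ 2 ≤ 4
    · have h1 : (1 - δ ^ 2 / 4) < 1 := by nlinarith [sq_nonneg δ, pow_pos hδ 2]
      have h0 : 0 ≤ 1 - δ ^ 2 / 4 := by linarith
      obtain ⟨N0, hN0⟩ := exists_pow_lt_of_lt_one hη h1
      refine ⟨N0, ?_⟩
      intro N hN z0 z hz0 hz hd
      have h2 : (‖1 + z * conj z0‖ / 2) ^ 2 ≤ 1 - δ ^ 2 / 4 := by
        rw [div_pow, hnorm2 z0 z hz0 hz]
        nlinarith [norm_nonneg (z - z0)]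
      rw [pow_mul]
      calc ((‖1 + z * conj z0‖ / 2) ^ 2) ^ N ≤ (1 - δ ^ 2 / 4) ^ N := by gcongr
        _ ≤ (1 - δ ^ 2 / 4) ^ N0 := pow_le_pow_of_le_one h0 h1.le hN
        _ ≤ η := hN0.le
    · refine ⟨0, ?_⟩
      intro N _ z0 z hz0 hz hd
      exfalso
      have h1 := hnorm2 z0 z hz0 hz
      have h2 : 0 ≤ ‖1 + z * conj z0‖ ^ 2 := by positivity
      apply hδ2
      nlinarith [norm_nonneg (z - z0)]

end Pool.Agent.U209.BX
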