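import Pool.Agent.U209.BX.Stp
import Pool.Agent.U209.BX.OscB
import Pool.Agent.U209.BX.Ext
import Pool.Agent.U780.BX.EXP
import Pool.Agent.U955.BX.STA
import Pool.Agent.U723.BX.STBC
import Pool.Agent.U2.BX.CURVE
import Pool.Agent.U56.BX.STAGE
import Pool.Agent.U928.BX.PATH
import Pool.Agent.U283.BX.CONS
import Pool.Agent.U603.BX.NB
import Pool.Agent.U606.BX.LIM
import Pool.Agent.U324.BX.LIMF

set_option autoImplicit false

namespace Pool.Agent.U209.BX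

open Polynomial Complex Finset Filter Topology MeasureTheory ComplexConjugate Metric

/-- a function which vanishes in the disc is in `BMOA` -/
lemma zero_BMOA {F : ℂ → ℂ} (h : ∀ z ∈ ball (0:ℂ) 1, F z = 0) : InBMOA F := by
  have hc : ∀ r : ℝ, 0 < r → r < 1 → ∀ θ : ℝ, F (r * exp (θ * I)) = 0 := by
    intro r h0 h1 θ
    apply h
    rw [mem_ball_zero_iff, norm_mul, Complex.norm_exp_ofReal_mul_I, mul_one, Complex.norm_real,
      Real.norm_eq_abs, abs_of_pos h0]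
    exact h1
  refine ⟨?_, ⟨0, ?_⟩, fun _ => 0, ⟨?_, ?_, ?_⟩, ?_, 0, ?_⟩
  · exact (differentiableOn_const (0:ℂ)).congr h
  · intro r h0 h1
    simp [hc r h0 h1]
  · intro θ; rfl
  · exact MemLp.zero'
  · have : (fun r : ℝ => ∫ θ in (0:ℝ)..(2 * Real.pi), ‖F (r * exp (θ * I)) - 0‖ ^ 2) =ᶠ[𝓝[<] 1]
        fun _ => (0:ℝ) := by
      filter_upwards [Ioo_mem_nhdsLT (show (0:ℝ) < 1 by norm_num)] with r hr
      simp [hc r hr.1 hr.2]
    exact tendsto_const_nhds.congr' this.symm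
  · simp
  · intro α β _ _
    simp [arcMean]

theorem step : S_STEP :=
  t_STEP U780.BX.EXP.t_EXP (U606.BX.LIM.t_LIM U780.BX.EXP.t_EXP) (U955.BX.t_STA t_BUMP t_KK)
    (U723.BX.t_STB t_BUMP t_KK) (U723.BX.t_STC t_BUMP t_OSC)

theorem path : S_PATH :=
  U928.BX.PATH.t_PATH (U56.BX.t_STAGE (U2.BX.t_RAD U2.BX.t_CURVE) (U2.BX.t_ROT U2.BX.t_CURVE)
    U56.BX.t_TRANS U56.BX.t_ITER)

theorem cons : S_CONS := U283.BX.CONS.t_CONS step path

theorem main : S_MAIN := by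
  obtain ⟨u, C, d, hG⟩ := cons
  obtain ⟨F, hF⟩ := U324.BX.LIMF.t_LIMF u C d hG
  obtain ⟨hi, ht⟩ := U324.BX.LIMF.t_AREA u C d F hG hF
  obtain ⟨k, hk, hkC, hrel⟩ := limk u C d F hG hF hi ht
  have hne : ∃ z ∈ ball (0:ℂ) 1, F z ≠ 0 := by
    by_contra hcon
    push Not at hcon
    exact U603.BX.t_NB u C d F hG hF 1 one_ne_zero (zero_BMOA (fun z hz => by simp [hcon z hz]))
  obtain ⟨h1, h2, c, hc, h3⟩ := ext F k C hF.1 hk hi hkC hne hrel
  exact ⟨k, fun z => c * F z, h1, h2, h3, ⟨C, hkC⟩, U603.BX.t_NB u C d F hG hF c hc⟩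

end Pool.Agent.U209.BX
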