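import Pool.Agent.U209.BX.Stm
import Pool.Agent.R253.KF.Fam

set_option autoImplicit false

namespace Pool.Agent.U209.BX

open Polynomial Complex Finset Filter Topology MeasureTheory ComplexConjugate Metric

/-- uniqueness of the coefficients of a power series -/
lemma uniq_coeff {d : ℕ → ℂ} (hs : Summable fun n => ‖d n‖)
    (h : ∀ z : ℂ, ‖z‖ < 1 → HasSum (fun n => d n * z ^ n) 0) : ∀ n, d n = 0 := by
  have hp : HasFPowerSeriesOnBall (fun _ : ℂ => (0:ℂ)) (FormalMultilinearSeries.ofScalars ℂ d) 0 1 := by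
    refine ⟨?_, one_pos, ?_⟩
    · have h1 : Summable fun n => ‖FormalMultilinearSeries.ofScalars ℂ d n‖ * ((1:NNReal):ℝ) ^ n := by
        simpa [FormalMultilinearSeries.ofScalars_norm] using hs
      have := FormalMultilinearSeries.le_radius_of_summable_norm _ h1
      simpa using this
    · intro y hy
      have hy' : ‖y‖ < 1 := by
        rw [Metric.mem_eball, edist_zero_right, ← ofReal_norm, ENNReal.ofReal_lt_one] at hy
        exact hy
      have h2 := h y hy'
      have e : (fun n => FormalMultilinearSeries.ofScalars ℂ d n fun _ => y) = fun n => d n * y ^ n := by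
        ext n
        rw [FormalMultilinearSeries.ofScalars_apply_eq, smul_eq_mul]
      rw [e]
      exact h2
  have h0 := hp.hasFPowerSeriesAt.eq_zero
  intro n
  have := congrFun h0 n
  exact (FormalMultilinearSeries.ofScalars_eq_zero (E := ℂ) n).1 this

/-- a polynomial without zeros in the closed disc has none in a larger disc -/
lemma zf_radius {u : ℂ[X]} (hu : ZF u) : ∃ R : ℝ, 1 < R ∧ ∀ z : ℂ, ‖z‖ < R → u.eval z ≠ 0 := by
  have hopen : IsOpen {z : ℂ | u.eval z ≠ 0} := isOpen_ne_fun u.continuous continuous_const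
  have hsub : closedBall (0:ℂ) 1 ⊆ {z : ℂ | u.eval z ≠ 0} := by
    intro z hz
    exact hu z (mem_closedBall_zero_iff.1 hz)
  obtain ⟨δ, hδ, h⟩ := (isCompact_closedBall (0:ℂ) 1).exists_thickening_subset_open hopen hsub
  refine ⟨1 + δ, by linarith, ?_⟩
  intro z hz
  apply h
  rw [thickening_closedBall hδ zero_le_one, mem_ball_zero_iff]
  linarith

/-- coefficients of functions analytic in a disc of radius larger than one decay -/
lemma exists_decay {f : ℂ → ℂ} {R : ℝ} (hR : 1 < R) (hf : DifferentiableOn ℂ f (ball 0 R)) :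
    ∃ (a : ℕ → ℂ) (C ρ : ℝ), 1 < ρ ∧ (∀ n, ‖a n‖ ≤ C * (ρ⁻¹) ^ n) ∧
      ∀ z : ℂ, ‖z‖ ≤ 1 → HasSum (fun n => a n * z ^ n) (f z) := by
  obtain ⟨ρ, h1, h2⟩ := exists_between hR
  have hρ : 0 < ρ := by linarith
  have hG : DifferentiableOn ℂ (fun z => f (ρ * z)) (ball 0 (R / ρ)) := by
    intro z hz
    have hm : (ρ:ℂ) * z ∈ ball (0:ℂ) R := by
      rw [mem_ball_zero_iff, norm_mul, Complex.norm_real, Real.norm_eq_abs, abs_of_pos hρ]
      rw [mem_ball_zero_iff, lt_div_iff₀ hρ] at hz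
      linarith
    have hd : DifferentiableAt ℂ f (ρ * z) := hf.differentiableAt (isOpen_ball.mem_nhds hm)
    have h3 : DifferentiableAt ℂ (fun z : ℂ => (ρ:ℂ) * z) z := by fun_prop
    exact (DifferentiableAt.comp z hd h3).differentiableWithinAt
  have hRρ : 1 < R / ρ := by rw [lt_div_iff₀ hρ]; linarith
  obtain ⟨b, hb, hs⟩ := Pool.Agent.R253.KF.exists_coeff hRρ hG
  refine ⟨fun n => b n * ((ρ:ℂ)⁻¹) ^ n, ∑' n, ‖b n‖, ρ, h1, ?_, ?_⟩
  · intro n
    rw [norm_mul, norm_pow, norm_inv, Complex.norm_real, Real.norm_eq_abs, abs_of_pos hρ]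
    apply mul_le_mul_of_nonneg_right _ (by positivity)
    exact hb.le_tsum n (fun i _ => norm_nonneg _)
  · intro z hz
    have hn : ‖(ρ:ℂ)⁻¹ * z‖ ≤ 1 := by
      rw [norm_mul, norm_inv, Complex.norm_real, Real.norm_eq_abs, abs_of_pos hρ]
      have : ρ⁻¹ ≤ 1 := inv_le_one_of_one_le₀ h1.le
      calc ρ⁻¹ * ‖z‖ ≤ 1 * 1 := by gcongr
        _ = 1 := one_mul 1
    have h3 := hs ((ρ:ℂ)⁻¹ * z) hn
    have hρ0 : (ρ:ℂ) ≠ 0 := Complex.ofReal_ne_zero.2 hρ.ne'
    rw [mul_inv_cancel_left₀ hρ0] at h3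
    have e : (fun n => b n * ((ρ:ℂ)⁻¹) ^ n * z ^ n) = fun n => b n * ((ρ:ℂ)⁻¹ * z) ^ n := by
      ext n; rw [mul_pow, mul_assoc]
    rw [e]
    exact h3

lemma summable_decay {a : ℕ → ℂ} {C ρ : ℝ} (hρ : 1 < ρ) (h : ∀ n, ‖a n‖ ≤ C * (ρ⁻¹) ^ n) :
    Summable fun n => ‖a n‖ := by
  apply Summable.of_nonneg_of_le (fun n => norm_nonneg _) h
  apply Summable.mul_left
  apply summable_geometric_of_lt_one (by positivity)
  exact inv_lt_one_of_one_lt₀ hρ

/-- the Taylor series of `1 / u ^ 2` as a formal inverse -/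
lemma gco_eq {u : ℂ[X]} (hu : ZF u) {a : ℕ → ℂ} (ha : Summable fun n => ‖a n‖)
    (h : ∀ z : ℂ, ‖z‖ ≤ 1 → HasSum (fun n => a n * z ^ n) ((u.eval z) ^ 2)⁻¹) : a = gco u := by
  set w : ℂ[X] := u ^ 2 with hw
  have hwz : ∀ z, HasSum (fun n => w.coeff n * z ^ n) (w.eval z) := by
    intro z
    rw [Polynomial.eval_eq_sum_range]
    apply hasSum_sum_of_ne_finset_zero
    intro n hn
    rw [Finset.mem_range, not_lt] at hn
    rw [Polynomial.coeff_eq_zero_of_natDegree_lt (by omega), zero_mul]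
  have hws : Summable fun n => ‖w.coeff n‖ := by
    apply summable_of_ne_finset_zero (s := Finset.range (w.natDegree + 1))
    intro n hn
    rw [Finset.mem_range, not_lt] at hn
    rw [Polynomial.coeff_eq_zero_of_natDegree_lt (by omega), norm_zero]
  have hsz : ∀ (c : ℕ → ℂ), (Summable fun n => ‖c n‖) → ∀ z : ℂ, ‖z‖ ≤ 1 →
      Summable fun n => ‖c n * z ^ n‖ := by
    intro c hc z hz
    apply Summable.of_nonneg_of_le (fun n => norm_nonneg _) _ hc
    intro n
    rw [norm_mul, norm_pow]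
    have : ‖z‖ ^ n ≤ 1 := pow_le_one₀ (norm_nonneg _) hz
    nlinarith [norm_nonneg (c n)]
  set e : ℕ → ℂ := fun n => ∑ kl ∈ HasAntidiagonal.antidiagonal n, w.coeff kl.1 * a kl.2 with he
  have hes : Summable fun n => ‖e n‖ := by
    have := summable_norm_sum_mul_antidiagonal_of_summable_norm hws ha
    exact this
  have h1 : ∀ z : ℂ, ‖z‖ < 1 → HasSum (fun n => e n * z ^ n) 1 := by
    intro z hz
    have k1 := hsz _ hws z hz.le
    have k2 := hsz _ ha z hz.le
    have k3 := tsum_mul_tsum_eq_tsum_sum_antidiagonal_of_summable_norm k1 k2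
    rw [(hwz z).tsum_eq, (h z hz.le).tsum_eq] at k3
    have k4 : w.eval z * ((u.eval z) ^ 2)⁻¹ = 1 := by
      rw [hw, Polynomial.eval_pow]
      exact mul_inv_cancel₀ (pow_ne_zero _ (hu z hz.le))
    rw [k4] at k3
    have k5 : (fun n => ∑ kl ∈ HasAntidiagonal.antidiagonal n, w.coeff kl.1 * z ^ kl.1 * (a kl.2 * z ^ kl.2)) =
        fun n => e n * z ^ n := by
      ext n
      rw [he]
      simp only []
      rw [Finset.sum_mul]
      apply Finset.sum_congr rfl
      intro kl hkl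
      rw [← mem_antidiagonal.1 hkl, pow_add]
      ring
    rw [k5] at k3
    rw [k3]
    exact (Summable.of_norm (hsz e hes z hz.le)).hasSum
  have h2 : ∀ n, e n - (if n = 0 then 1 else 0) = 0 := by
    apply uniq_coeff
    · have hd : Summable fun n : ℕ => ‖(if n = 0 then (1:ℂ) else 0)‖ := by
        apply summable_of_ne_finset_zero (s := {0})
        intro n hn
        simp at hn
        simp [hn]
      apply Summable.of_nonneg_of_le (fun n => norm_nonneg _) (fun n => norm_sub_le _ _) (hes.add hd)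
    · intro z hz
      have k1 := h1 z hz
      have k2 : HasSum (fun n : ℕ => (if n = 0 then (1:ℂ) else 0) * z ^ n) 1 := by
        have := hasSum_single (f := fun n : ℕ => (if n = 0 then (1:ℂ) else 0) * z ^ n) 0
          (fun n hn => by simp [hn])
        simpa using this
      have k3 := k1.sub k2
      rw [sub_self] at k3
      have k4 : (fun n => e n * z ^ n - (if n = 0 then (1:ℂ) else 0) * z ^ n) =
          fun n => (e n - if n = 0 then 1 else 0) * z ^ n := by
        ext n; ring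
      rw [k4] at k3
      exact k3
  have h3 : (w : PowerSeries ℂ) * PowerSeries.mk a = 1 := by
    ext n
    rw [PowerSeries.coeff_mul, PowerSeries.coeff_one]
    have := sub_eq_zero.1 (h2 n)
    rw [← this, he]
    apply Finset.sum_congr rfl
    intro kl _
    rw [Polynomial.coeff_coe, PowerSeries.coeff_mk]
  have hu0 : PowerSeries.constantCoeff (u : PowerSeries ℂ) ≠ 0 := by
    have := hu 0 (by simp)
    rw [← Polynomial.coeff_zero_eq_eval_zero] at this
    rw [← PowerSeries.coeff_zero_eq_constantCoeff_apply, Polynomial.coeff_coe]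
    exact this
  have h4 : (w : PowerSeries ℂ) = (u : PowerSeries ℂ) ^ 2 := by
    rw [hw]; push_cast; rfl
  have h5 : (u : PowerSeries ℂ) * (u : PowerSeries ℂ)⁻¹ = 1 := PowerSeries.mul_inv_cancel _ hu0
  have h6 : PowerSeries.mk a = ((u : PowerSeries ℂ)⁻¹) ^ 2 := by
    calc PowerSeries.mk a = ((u : PowerSeries ℂ) * (u : PowerSeries ℂ)⁻¹) ^ 2 * PowerSeries.mk a := by
          rw [h5, one_pow, one_mul]
      _ = ((u : PowerSeries ℂ)⁻¹) ^ 2 * ((u : PowerSeries ℂ) ^ 2 * PowerSeries.mk a) := by ring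
      _ = ((u : PowerSeries ℂ)⁻¹) ^ 2 := by rw [← h4, h3, mul_one]
  ext n
  unfold gco
  rw [← h6, PowerSeries.coeff_mk]

theorem t_COEF : S_COEF := by
  intro u hu
  obtain ⟨R, hR, hz⟩ := zf_radius hu
  have hd : DifferentiableOn ℂ (fun z => ((u.eval z) ^ 2)⁻¹) (ball 0 R) := by
    intro z hzR
    have h1 : u.eval z ≠ 0 := hz z (mem_ball_zero_iff.1 hzR)
    exact ((u.differentiableAt.pow 2).inv (pow_ne_zero _ h1)).differentiableWithinAt
  obtain ⟨a, C, ρ, hρ, h1, h2⟩ := exists_decay hR hd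
  have e := gco_eq hu (summable_decay hρ h1) h2
  subst e
  exact ⟨⟨C, ρ, hρ, h1⟩, h2⟩

end Pool.Agent.U209.BX
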