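import Pool.Agent.U209.BX.Coef

set_option autoImplicit false

namespace Pool.Agent.U209.BX

open Polynomial Complex Finset Filter Topology MeasureTheory ComplexConjugate Metric
open Pool.Agent.R253.KF (cc mom)

lemma Kc_decay {u : ℂ[X]} {C ρ : ℝ} (hρ : 1 < ρ) (h : ∀ b, ‖gco u b‖ ≤ C * (ρ⁻¹) ^ b) (n : ℕ) :
    ‖Kc u n‖ ≤ ((∑ a ∈ range (u.natDegree + 1), ‖u.coeff a‖) * C) * (ρ⁻¹) ^ n := by
  have hC : 0 ≤ C := by
    have := (norm_nonneg _).trans (h 0)
    simpa using this
  unfold Kc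
  rw [Finset.sum_mul, Finset.sum_mul]
  refine (norm_sum_le _ _).trans (Finset.sum_le_sum ?_)
  intro a _
  rw [norm_mul, norm_mul, RCLike.norm_conj]
  have h1 : ‖((n : ℂ) + 1) / ((n : ℂ) + a + 1)‖ ≤ 1 := by
    rw [norm_div, div_le_one]
    · have e1 : ((n : ℂ) + 1) = ((n + 1 : ℕ) : ℂ) := by push_cast; ring
      have e2 : ((n : ℂ) + a + 1) = ((n + a + 1 : ℕ) : ℂ) := by push_cast; ring
      rw [e1, e2, Complex.norm_natCast, Complex.norm_natCast]
      exact_mod_cast by omega
    · have e2 : ((n : ℂ) + a + 1) = ((n + a + 1 : ℕ) : ℂ) := by push_cast; ring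
      rw [e2, Complex.norm_natCast]
      positivity
  have h2 : ‖gco u (n + a)‖ ≤ C * (ρ⁻¹) ^ n := by
    refine (h (n + a)).trans ?_
    rw [pow_add]
    have h3 : (ρ⁻¹) ^ a ≤ 1 := pow_le_one₀ (by positivity) (inv_le_one_of_one_le₀ hρ.le)
    have h4 : 0 ≤ (ρ⁻¹) ^ n := by positivity
    calc C * ((ρ⁻¹) ^ n * (ρ⁻¹) ^ a) ≤ C * ((ρ⁻¹) ^ n * 1) := by gcongr
      _ = C * (ρ⁻¹) ^ n := by ring
  calc ‖u.coeff a‖ * ‖gco u (n + a)‖ * ‖((n : ℂ) + 1) / ((n : ℂ) + a + 1)‖
      ≤ ‖u.coeff a‖ * (C * (ρ⁻¹) ^ n) * 1 := by gcongr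
    _ = ‖u.coeff a‖ * C * (ρ⁻¹) ^ n := by ring

/-- power series with absolutely summable coefficients -/
lemma ps_cont {c : ℕ → ℂ} (hc : Summable fun n => ‖c n‖) :
    ContinuousOn (fun z : ℂ => ∑' n, c n * z ^ n) (closedBall 0 1) := by
  apply continuousOn_tsum (u := fun n => ‖c n‖) _ hc
  · intro n z hz
    rw [norm_mul, norm_pow]
    have : ‖z‖ ^ n ≤ 1 := pow_le_one₀ (norm_nonneg _) (mem_closedBall_zero_iff.1 hz)
    nlinarith [norm_nonneg (c n)]
  · intro n
    fun_prop

/-- power series with bounded coefficients -/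
lemma ps_fps {c : ℕ → ℂ} {M : ℝ} (hc : ∀ n, ‖c n‖ ≤ M) :
    HasFPowerSeriesOnBall (fun z : ℂ => ∑' n, c n * z ^ n)
      (FormalMultilinearSeries.ofScalars ℂ c) 0 1 := by
  have hsum : ∀ z : ℂ, ‖z‖ < 1 → Summable fun n => c n * z ^ n := by
    intro z hz
    apply Summable.of_norm_bounded (g := fun n => M * ‖z‖ ^ n)
    · exact (summable_geometric_of_lt_one (norm_nonneg _) hz).mul_left _
    · intro n
      rw [norm_mul, norm_pow]
      exact mul_le_mul_of_nonneg_right (hc n) (by positivity)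
  refine ⟨?_, one_pos, ?_⟩
  · apply ENNReal.le_of_forall_nnreal_lt
    intro r hr
    have hr1 : (r:ℝ) < 1 := by exact_mod_cast hr
    apply FormalMultilinearSeries.le_radius_of_bound _ M
    intro n
    rw [FormalMultilinearSeries.ofScalars_norm]
    have h1 : (r:ℝ) ^ n ≤ 1 := pow_le_one₀ r.2 hr1.le
    have h2 : 0 ≤ M := (norm_nonneg _).trans (hc 0)
    calc ‖c n‖ * (r:ℝ) ^ n ≤ M * 1 := by
          apply mul_le_mul (hc n) h1 (by positivity) h2
      _ = M := mul_one M
  · intro y hy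
    have hy' : ‖y‖ < 1 := by
      rw [Metric.mem_eball, edist_zero_right, ← ofReal_norm, ENNReal.ofReal_lt_one] at hy
      exact hy
    have e : (fun n => FormalMultilinearSeries.ofScalars ℂ c n fun _ => y) = fun n => c n * y ^ n := by
      ext n
      rw [FormalMultilinearSeries.ofScalars_apply_eq, smul_eq_mul]
    rw [e, zero_add]
    exact (hsum y hy').hasSum

lemma ps_diff {c : ℕ → ℂ} {M : ℝ} (hc : ∀ n, ‖c n‖ ≤ M) :
    DifferentiableOn ℂ (fun z : ℂ => ∑' n, c n * z ^ n) (ball 0 1) := by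
  have h := (ps_fps hc).differentiableOn
  have e : Metric.eball (0:ℂ) 1 = ball 0 1 := by
    have := Metric.eball_ofReal (x := (0:ℂ)) (ε := 1)
    rwa [ENNReal.ofReal_one] at this
  rw [e] at h
  exact h

lemma ps_bound {c : ℕ → ℂ} (hc : Summable fun n => ‖c n‖) {C : ℝ}
    (h : ∀ z : ℂ, ‖z‖ = 1 → ‖∑' n, c n * z ^ n‖ ≤ C) :
    (∀ z : ℂ, ‖z‖ ≤ 1 → ‖∑' n, c n * z ^ n‖ ≤ C) ∧ ∀ n, ‖c n‖ ≤ C := by
  have hM : ∀ n, ‖c n‖ ≤ ∑' n, ‖c n‖ := fun n => hc.le_tsum n (fun i _ => norm_nonneg _)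
  have hd := ps_diff hM
  have hcl : closure (ball (0:ℂ) 1) = closedBall 0 1 := closure_ball 0 one_ne_zero
  have hdc : DiffContOnCl ℂ (fun z : ℂ => ∑' n, c n * z ^ n) (ball 0 1) :=
    ⟨hd, by rw [hcl]; exact ps_cont hc⟩
  constructor
  · intro z hz
    apply Complex.norm_le_of_forall_mem_frontier_norm_le (U := ball (0:ℂ) 1) isBounded_ball hdc
      (C := C) (fun w hw => by
        rw [frontier_ball (0:ℂ) one_ne_zero] at hw
        exact h w (mem_sphere_zero_iff_norm.1 hw))
    rw [hcl]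
    exact mem_closedBall_zero_iff.2 hz
  · intro n
    have h1 := Complex.norm_iteratedDeriv_le_of_forall_mem_sphere_norm_le n one_pos hdc
      (fun w hw => h w (mem_sphere_zero_iff_norm.1 hw))
    have h2 := (ps_fps hM).factorial_smul (1:ℂ) n
    rw [iteratedDeriv_eq_iteratedFDeriv, ← h2, FormalMultilinearSeries.ofScalars_apply_eq] at h1
    simp only [one_pow, smul_eq_mul, mul_one, div_one, nsmul_eq_mul, norm_mul,
      Complex.norm_natCast] at h1
    have h3 : (0:ℝ) < n.factorial := by exact_mod_cast n.factorial_pos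
    exact le_of_mul_le_mul_left h1 h3

/-- area integrals of monomials -/
lemma mono_int (a n : ℕ) : ∫ z in ball (0:ℂ) 1, z ^ a * conj z ^ n =
    if a = n then ((Real.pi / (n + 1) : ℝ) : ℂ) else 0 := by
  have h1d : DifferentiableOn ℂ (fun _ : ℂ => (1:ℂ)) (ball 0 1) := differentiableOn_const _
  have h1i : IntegrableOn (fun _ : ℂ => (1:ℂ)) (ball 0 1) := by
    apply (continuousOn_const.integrableOn_compact (isCompact_closedBall (0:ℂ) 1)).mono_set
      ball_subset_closedBall
  have hconj : ∀ B : ℕ, 0 < B → ∫ z in ball (0:ℂ) 1, conj z ^ B = 0 := by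
    intro B hB
    have h := mom h1d h1i 0 B
    have hc : cc 0 B = 0 := by unfold cc; rw [if_neg (by omega)]
    rw [hc] at h
    simpa using h
  have hpow : ∀ B : ℕ, 0 < B → ∫ z in ball (0:ℂ) 1, z ^ B = 0 := by
    intro B hB
    have h := hconj B hB
    have e : ∀ z : ℂ, conj z ^ B = conj (z ^ B) := fun z => by rw [map_pow]
    simp only [e] at h
    rw [integral_conj] at h
    exact (map_eq_zero _).1 h
  have h := mom h1d h1i a n
  simp only [map_one, mul_one] at h
  rw [h]
  split_ifs with han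
  · subst han
    rw [Nat.sub_self]
    simp only [pow_zero]
    rw [setIntegral_const, measureReal_def, Complex.volume_ball]
    unfold cc
    rw [if_pos le_rfl, Nat.sub_self]
    simp
    field_simp
  · rcases lt_or_gt_of_ne han with h1 | h1
    · have hc : cc a n = 0 := by unfold cc; rw [if_neg (by omega)]
      rw [hc]; simp
    · rw [hpow (a - n) (by omega), mul_zero]

lemma part3 {u : ℂ[X]} (hu : ZF u) (n : ℕ) :
    ∫ z in ball (0:ℂ) 1, conj z ^ n * (conj (u.eval z) / (u.eval z) ^ 2) =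
      ((Real.pi / (n + 1) : ℝ) : ℂ) * Kc u n := by
  obtain ⟨⟨C, ρ, hρ, hdec⟩, hsum⟩ := t_COEF u hu
  have hs := summable_decay hρ hdec
  set μ : Measure ℂ := volume.restrict (ball (0:ℂ) 1) with hμ
  have hae : ∀ᵐ z ∂μ, ‖z‖ ≤ 1 := by
    filter_upwards [ae_restrict_mem measurableSet_ball] with z hz
    exact (mem_ball_zero_iff.1 hz).le
  have hfin : IsFiniteMeasure μ := ⟨by
    rw [hμ, Measure.restrict_apply_univ]
    exact measure_ball_lt_top⟩
  -- for one monomial of `u`
  have key : ∀ a : ℕ, HasSum (fun b => gco u b * ∫ z, z ^ b * conj z ^ (n + a) ∂μ)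
      (∫ z, ((u.eval z) ^ 2)⁻¹ * conj z ^ (n + a) ∂μ) := by
    intro a
    have hcont : ∀ b : ℕ, Continuous fun z : ℂ => gco u b * (z ^ b * conj z ^ (n + a)) := by
      intro b
      have := Complex.continuous_conj
      fun_prop
    have hbd : ∀ (b : ℕ) (z : ℂ), ‖z‖ ≤ 1 → ‖gco u b * (z ^ b * conj z ^ (n + a))‖ ≤ ‖gco u b‖ := by
      intro b z hz
      rw [norm_mul, norm_mul, norm_pow, norm_pow, RCLike.norm_conj]
      have h1 : ‖z‖ ^ b ≤ 1 := pow_le_one₀ (norm_nonneg _) hz
      have h2 : ‖z‖ ^ (n + a) ≤ 1 := pow_le_one₀ (norm_nonneg _) hz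
      calc ‖gco u b‖ * (‖z‖ ^ b * ‖z‖ ^ (n + a)) ≤ ‖gco u b‖ * (1 * 1) := by gcongr
        _ = ‖gco u b‖ := by ring
    have hint : ∀ b, Integrable (fun z => gco u b * (z ^ b * conj z ^ (n + a))) μ := by
      intro b
      apply Integrable.mono' (g := fun _ => ‖gco u b‖) (integrable_const _)
      · exact (hcont b).aestronglyMeasurable
      · filter_upwards [hae] with z hz
        exact hbd b z hz
    have hsm : Summable fun b => ∫ z, ‖gco u b * (z ^ b * conj z ^ (n + a))‖ ∂μ := by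
      apply Summable.of_nonneg_of_le (fun b => integral_nonneg fun z => norm_nonneg _) _
        (hs.mul_right (∫ _z, (1:ℝ) ∂μ))
      intro b
      rw [← integral_const_mul]
      apply integral_mono_ae (hint b).norm ((integrable_const _).const_mul _)
      filter_upwards [hae] with z hz
      rw [mul_one]
      exact hbd b z hz
    have h := hasSum_integral_of_summable_integral_norm hint hsm
    have e1 : ∀ b, ∫ z, gco u b * (z ^ b * conj z ^ (n + a)) ∂μ =
        gco u b * ∫ z, z ^ b * conj z ^ (n + a) ∂μ := fun b => integral_const_mul _ _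
    simp only [e1] at h
    have e2 : ∫ z, (∑' b, gco u b * (z ^ b * conj z ^ (n + a))) ∂μ =
        ∫ z, ((u.eval z) ^ 2)⁻¹ * conj z ^ (n + a) ∂μ := by
      apply integral_congr_ae
      filter_upwards [hae] with z hz
      have h3 := (hsum z hz).mul_right (conj z ^ (n + a))
      have h4 : (fun b => gco u b * z ^ b * conj z ^ (n + a)) =
          fun b => gco u b * (z ^ b * conj z ^ (n + a)) := by ext b; ring
      rw [h4] at h3
      exact h3.tsum_eq
    rw [e2] at h
    exact h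
  have key2 : ∀ a : ℕ, ∫ z, ((u.eval z) ^ 2)⁻¹ * conj z ^ (n + a) ∂μ =
      gco u (n + a) * ((Real.pi / ((n + a : ℕ) + 1) : ℝ) : ℂ) := by
    intro a
    have h1 := key a
    have h2 : HasSum (fun b => gco u b * ∫ z, z ^ b * conj z ^ (n + a) ∂μ)
        (gco u (n + a) * ∫ z, z ^ (n + a) * conj z ^ (n + a) ∂μ) := by
      apply hasSum_single
      intro b hb
      have := mono_int b (n + a)
      rw [if_neg hb] at this
      rw [hμ, this, mul_zero]
    rw [h1.unique h2]
    have := mono_int (n + a) (n + a)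
    rw [if_pos rfl] at this
    rw [hμ, this]
  have hcu : ∀ z : ℂ, conj z ^ n * (conj (u.eval z) / (u.eval z) ^ 2) =
      ∑ a ∈ range (u.natDegree + 1), conj (u.coeff a) * (((u.eval z) ^ 2)⁻¹ * conj z ^ (n + a)) := by
    intro z
    have : conj (u.eval z) = ∑ a ∈ range (u.natDegree + 1), conj (u.coeff a) * conj z ^ a := by
      rw [Polynomial.eval_eq_sum_range, map_sum]
      apply Finset.sum_congr rfl
      intro a _
      rw [map_mul, map_pow]
    rw [this, Finset.sum_div, Finset.mul_sum]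
    apply Finset.sum_congr rfl
    intro a _
    rw [pow_add]
    ring
  simp only [hcu]
  have hinta : ∀ a ∈ range (u.natDegree + 1),
      Integrable (fun z => conj (u.coeff a) * (((u.eval z) ^ 2)⁻¹ * conj z ^ (n + a))) μ := by
    intro a _
    apply Integrable.const_mul
    have hc : ContinuousOn (fun z : ℂ => ((u.eval z) ^ 2)⁻¹ * conj z ^ (n + a)) (closedBall 0 1) := by
      apply ContinuousOn.mul
      · apply ContinuousOn.inv₀ ((u.continuous.pow 2).continuousOn)
        intro z hz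
        exact pow_ne_zero _ (hu z (mem_closedBall_zero_iff.1 hz))
      · have := Complex.continuous_conj
        fun_prop
    exact (hc.integrableOn_compact (isCompact_closedBall (0:ℂ) 1)).mono_set ball_subset_closedBall
  rw [integral_finsetSum _ hinta]
  unfold Kc
  rw [Finset.mul_sum]
  apply Finset.sum_congr rfl
  intro a _
  rw [integral_const_mul, key2 a]
  have e1 : ((n:ℂ) + 1) ≠ 0 := by exact_mod_cast Nat.succ_ne_zero n
  have e2 : ((n:ℂ) + a + 1) ≠ 0 := by exact_mod_cast Nat.succ_ne_zero (n + a)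
  push_cast
  field_simp

theorem t_KK : S_KK := by
  intro u hu
  obtain ⟨⟨C, ρ, hρ, hdec⟩, hsum⟩ := t_COEF u hu
  have hK := Kc_decay hρ hdec
  exact ⟨⟨_, ρ, hρ, hK⟩, fun C' hC' => ps_bound (summable_decay hρ hK) hC', part3 hu⟩

end Pool.Agent.U209.BX
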