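import Pool.Agent.U209.BX.KK
import Pool.Agent.R253.KF.Weak

set_option autoImplicit false

namespace Pool.Agent.U209.BX

open Polynomial Complex Finset Filter Topology MeasureTheory ComplexConjugate Metric
open Pool.Agent.R253.KF (cc mom weak_lim)

/-- `|w|^{p-2} w` for `p = 4/3` -/
noncomputable def Ph (w : ℂ) : ℂ := ((‖w‖ ^ (-(2 / 3) : ℝ) : ℝ) : ℂ) * w

lemma Ph_norm (w : ℂ) : ‖Ph w‖ = ‖w‖ ^ ((1:ℝ) / 3) := by
  unfold Ph
  rw [norm_mul, Complex.norm_real, Real.norm_eq_abs, abs_of_nonneg (by positivity)]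
  rcases eq_or_ne w 0 with h | h
  · subst h
    rw [norm_zero, mul_zero, Real.zero_rpow (by norm_num)]
  · have hw : 0 < ‖w‖ := norm_pos_iff.2 h
    rw [← Real.rpow_add_one hw.ne']
    norm_num

lemma Ph_cont : Continuous Ph := by
  rw [continuous_iff_continuousAt]
  intro w
  rcases eq_or_ne w 0 with h | h
  · subst h
    have h0 : Ph 0 = 0 := by simp [Ph]
    rw [ContinuousAt, h0, tendsto_zero_iff_norm_tendsto_zero]
    simp only [Ph_norm]
    have h1 : Continuous fun w : ℂ => ‖w‖ ^ ((1:ℝ) / 3) :=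
      (Real.continuous_rpow_const (by norm_num)).comp continuous_norm
    have h2 := h1.tendsto 0
    rw [norm_zero, Real.zero_rpow (by norm_num)] at h2
    exact h2
  · unfold Ph
    apply ContinuousAt.mul _ continuousAt_id
    apply Complex.continuous_ofReal.continuousAt.comp
    exact continuous_norm.continuousAt.rpow_const (Or.inl (norm_ne_zero_iff.2 h))

lemma Ph_pow (w : ℂ) : ‖Ph w‖ ^ (4:ℝ) = ‖w‖ ^ ((4:ℝ) / 3) := by
  rw [Ph_norm, ← Real.rpow_mul (norm_nonneg _)]
  norm_num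

lemma rpow_le_sq {x : ℝ} (hx : 0 ≤ x) : x ^ ((4:ℝ) / 3) ≤ 1 + x ^ 2 := by
  rcases le_total x 1 with h | h
  · have h1 := Real.rpow_le_one hx h (show (0:ℝ) ≤ 4 / 3 by norm_num)
    nlinarith [sq_nonneg x]
  · have h1 := Real.rpow_le_rpow_of_exponent_le h (show (4:ℝ) / 3 ≤ 2 by norm_num)
    rw [Real.rpow_two] at h1
    linarith

/-- the function whose projection is `K u` -/
noncomputable def gg (u : ℂ[X]) (z : ℂ) : ℂ := conj (u.eval z) / (u.eval z) ^ 2

lemma gg_eq {u : ℂ[X]} {z : ℂ} (h : u.eval z ≠ 0) : gg u z = Ph (Fn u z) := by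
  have hn : 0 < ‖u.eval z‖ := norm_pos_iff.2 h
  unfold gg Ph Fn
  have e1 : ‖((u.eval z) ^ 3)⁻¹‖ ^ (-(2 / 3) : ℝ) = ‖u.eval z‖ ^ 2 := by
    rw [norm_inv, norm_pow, Real.inv_rpow (by positivity), ← Real.rpow_neg (by positivity),
      ← Real.rpow_natCast, ← Real.rpow_natCast, ← Real.rpow_mul hn.le]
    norm_num
  rw [e1]
  have e2 : ((‖u.eval z‖ ^ 2 : ℝ) : ℂ) = u.eval z * conj (u.eval z) := by
    rw [Complex.mul_conj']; push_cast; rfl
  rw [e2]
  field_simp

lemma gg_cont {u : ℂ[X]} (hu : ZF u) : ContinuousOn (gg u) (closedBall 0 1) := by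
  unfold gg
  apply ContinuousOn.div
  · exact (Complex.continuous_conj.comp u.continuous).continuousOn
  · exact (u.continuous.pow 2).continuousOn
  · intro z hz
    exact pow_ne_zero _ (hu z (mem_closedBall_zero_iff.1 hz))

lemma fin_ball : IsFiniteMeasure (volume.restrict (ball (0:ℂ) 1)) := ⟨by
  rw [Measure.restrict_apply_univ]
  exact measure_ball_lt_top⟩

/-- the pairing of `K u` with conjugates of analytic functions -/
lemma pairK {u : ℂ[X]} (hu : ZF u) {f : ℂ → ℂ} (hf : DifferentiableOn ℂ f (ball 0 1))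
    (hi : IntegrableOn f (ball 0 1)) :
    ∫ z in ball (0:ℂ) 1, K u z * conj (f z) = ∫ z in ball (0:ℂ) 1, gg u z * conj (f z) := by
  obtain ⟨⟨C, ρ, hρ, hdec⟩, hsum⟩ := t_COEF u hu
  have hs := summable_decay hρ hdec
  have hKs := summable_decay hρ (Kc_decay hρ hdec)
  set μ : Measure ℂ := volume.restrict (ball (0:ℂ) 1) with hμ
  have hae : ∀ᵐ z ∂μ, ‖z‖ ≤ 1 := by
    filter_upwards [ae_restrict_mem measurableSet_ball] with z hz
    exact (mem_ball_zero_iff.1 hz).le
  have hcf : AEStronglyMeasurable (fun z => conj (f z)) μ :=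
    Complex.continuous_conj.comp_aestronglyMeasurable hi.aestronglyMeasurable
  -- generic exchange
  have key : ∀ (w : ℕ → ℂ) (t : ℕ → ℂ → ℂ), (Summable fun n => ‖w n‖) → (∀ i, Continuous (t i)) →
      (∀ i z, ‖z‖ ≤ 1 → ‖t i z‖ ≤ ‖w i‖) →
      HasSum (fun i => ∫ z, t i z * conj (f z) ∂μ) (∫ z, (∑' i, t i z) * conj (f z) ∂μ) := by
    intro w t hw ht hb
    have hint : ∀ i, Integrable (fun z => t i z * conj (f z)) μ := by
      intro i
      apply Integrable.mono' (g := fun z => ‖w i‖ * ‖f z‖) (hi.norm.const_mul _)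
      · exact (ht i).aestronglyMeasurable.mul hcf
      · filter_upwards [hae] with z hz
        rw [norm_mul, RCLike.norm_conj]
        exact mul_le_mul_of_nonneg_right (hb i z hz) (norm_nonneg _)
    have hsum : Summable fun i => ∫ z, ‖t i z * conj (f z)‖ ∂μ := by
      apply Summable.of_nonneg_of_le (fun i => integral_nonneg fun z => norm_nonneg _) _
        (hw.mul_right (∫ z, ‖f z‖ ∂μ))
      intro i
      rw [← integral_const_mul]
      apply integral_mono_ae (hint i).norm (hi.norm.const_mul _)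
      filter_upwards [hae] with z hz
      rw [norm_mul, RCLike.norm_conj]
      exact mul_le_mul_of_nonneg_right (hb i z hz) (norm_nonneg _)
    have h := hasSum_integral_of_summable_integral_norm hint hsum
    have e : ∀ z, ∑' i, t i z * conj (f z) = (∑' i, t i z) * conj (f z) := fun z => tsum_mul_right
    simp only [e] at h
    exact h
  set m : ℕ → ℂ := fun n => ∫ z, z ^ n * conj (f z) ∂μ with hm
  have hK := key (Kc u) (fun n z => Kc u n * z ^ n) hKs (fun n => by fun_prop) (fun n z hz => by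
    rw [norm_mul, norm_pow]
    have : ‖z‖ ^ n ≤ 1 := pow_le_one₀ (norm_nonneg _) hz
    nlinarith [norm_nonneg (Kc u n)])
  have hK1 : ∀ n, ∫ z, Kc u n * z ^ n * conj (f z) ∂μ = Kc u n * m n := by
    intro n
    rw [hm]
    simp only []
    rw [← integral_const_mul]
    congr 1; ext z; ring
  simp only [hK1] at hK
  -- the other side, one monomial of `u`
  have hA : ∀ a : ℕ, HasSum (fun n => gco u (n + a) * (((n : ℂ) + 1) / ((n : ℂ) + a + 1)) * m n)
      (∫ z, ((u.eval z) ^ 2)⁻¹ * conj z ^ a * conj (f z) ∂μ) := by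
    intro a
    have h1 := key (gco u) (fun b z => gco u b * (z ^ b * conj z ^ a)) hs (fun b => by
        have := Complex.continuous_conj
        fun_prop) (fun b z hz => by
        rw [norm_mul, norm_mul, norm_pow, norm_pow, RCLike.norm_conj]
        have h1 : ‖z‖ ^ b ≤ 1 := pow_le_one₀ (norm_nonneg _) hz
        have h2 : ‖z‖ ^ a ≤ 1 := pow_le_one₀ (norm_nonneg _) hz
        calc ‖gco u b‖ * (‖z‖ ^ b * ‖z‖ ^ a) ≤ ‖gco u b‖ * (1 * 1) := by gcongr
          _ = ‖gco u b‖ := by ring)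
    have e1 : ∀ b, ∫ z, gco u b * (z ^ b * conj z ^ a) * conj (f z) ∂μ =
        gco u b * ((cc b a : ℂ) * m (b - a)) := by
      intro b
      have h2 := mom hf hi b a
      rw [← h2, ← integral_const_mul]
      congr 1; ext z; ring
    simp only [e1] at h1
    have e2 : ∫ z, (∑' b, gco u b * (z ^ b * conj z ^ a)) * conj (f z) ∂μ =
        ∫ z, ((u.eval z) ^ 2)⁻¹ * conj z ^ a * conj (f z) ∂μ := by
      apply integral_congr_ae
      filter_upwards [hae] with z hz
      have h3 := (hsum z hz).mul_right (conj z ^ a)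
      have h4 : (fun b => gco u b * z ^ b * conj z ^ a) =
          fun b => gco u b * (z ^ b * conj z ^ a) := by ext b; ring
      rw [h4] at h3
      rw [h3.tsum_eq]
    rw [e2] at h1
    have h5 := (hasSum_nat_add_iff' (f := fun b => gco u b * ((cc b a : ℂ) * m (b - a))) a).2 h1
    have e3 : ∑ i ∈ range a, gco u i * ((cc i a : ℂ) * m (i - a)) = 0 := by
      apply Finset.sum_eq_zero
      intro i hia
      have : cc i a = 0 := by unfold cc; rw [if_neg (by have := Finset.mem_range.1 hia; omega)]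
      rw [this]; simp
    rw [e3, sub_zero] at h5
    have e4 : (fun n => gco u (n + a) * ((cc (n + a) a : ℂ) * m (n + a - a))) =
        fun n => gco u (n + a) * (((n : ℂ) + 1) / ((n : ℂ) + a + 1)) * m n := by
      ext n
      have : cc (n + a) a = ((n:ℝ) + 1) / ((n:ℝ) + a + 1) := by
        unfold cc
        rw [if_pos (by omega), Nat.add_sub_cancel]
        push_cast; ring
      rw [this, Nat.add_sub_cancel]
      push_cast; ring
    rw [e4] at h5
    exact h5
  have hB : HasSum (fun n => Kc u n * m n) (∫ z, gg u z * conj (f z) ∂μ) := by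
    have h1 : HasSum (fun n => ∑ a ∈ range (u.natDegree + 1), conj (u.coeff a) *
        (gco u (n + a) * (((n : ℂ) + 1) / ((n : ℂ) + a + 1)) * m n))
        (∑ a ∈ range (u.natDegree + 1), conj (u.coeff a) *
          ∫ z, ((u.eval z) ^ 2)⁻¹ * conj z ^ a * conj (f z) ∂μ) :=
      hasSum_sum fun a _ => (hA a).mul_left _
    have e1 : (fun n => ∑ a ∈ range (u.natDegree + 1), conj (u.coeff a) *
        (gco u (n + a) * (((n : ℂ) + 1) / ((n : ℂ) + a + 1)) * m n)) = fun n => Kc u n * m n := by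
      ext n
      unfold Kc
      rw [Finset.sum_mul]
      apply Finset.sum_congr rfl
      intro a _
      ring
    rw [e1] at h1
    have e2 : (∑ a ∈ range (u.natDegree + 1), conj (u.coeff a) *
          ∫ z, ((u.eval z) ^ 2)⁻¹ * conj z ^ a * conj (f z) ∂μ) = ∫ z, gg u z * conj (f z) ∂μ := by
      have hinta : ∀ a ∈ range (u.natDegree + 1),
          Integrable (fun z => conj (u.coeff a) * (((u.eval z) ^ 2)⁻¹ * conj z ^ a * conj (f z))) μ := by
        intro a _
        apply Integrable.const_mul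
        have hc : ContinuousOn (fun z : ℂ => ((u.eval z) ^ 2)⁻¹ * conj z ^ a) (closedBall 0 1) := by
          apply ContinuousOn.mul
          · apply ContinuousOn.inv₀ ((u.continuous.pow 2).continuousOn)
            intro z hz
            exact pow_ne_zero _ (hu z (mem_closedBall_zero_iff.1 hz))
          · have := Complex.continuous_conj
            fun_prop
        obtain ⟨M, hM⟩ := (isCompact_closedBall (0:ℂ) 1).exists_bound_of_continuousOn hc
        apply Integrable.mono' (g := fun z => M * ‖f z‖) (hi.norm.const_mul _)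
        · apply AEStronglyMeasurable.mul _ hcf
          exact (hc.mono ball_subset_closedBall).aestronglyMeasurable measurableSet_ball
        · filter_upwards [hae] with z hz
          rw [norm_mul, RCLike.norm_conj]
          exact mul_le_mul_of_nonneg_right (hM z (mem_closedBall_zero_iff.2 hz)) (norm_nonneg _)
      simp only [← integral_const_mul]
      rw [← integral_finsetSum _ hinta]
      congr 1
      ext z
      unfold gg
      have : conj (u.eval z) = ∑ a ∈ range (u.natDegree + 1), conj (u.coeff a) * conj z ^ a := by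
        rw [Polynomial.eval_eq_sum_range, map_sum]
        apply Finset.sum_congr rfl
        intro a _
        rw [map_mul, map_pow]
      rw [this, Finset.sum_div, Finset.sum_mul]
      apply Finset.sum_congr rfl
      intro a _
      ring
    rw [e2] at h1
    exact h1
  exact hK.unique hB

/-- the kernel of the limit function -/
theorem limk (u : ℕ → ℂ[X]) (C : ℝ) (d : ℕ → ℝ) (F : ℂ → ℂ) (hG : Good u C d)
    (hF : IsLim u d F) (hi : IntegrableOn (fun z => ‖F z‖ ^ 2) (ball (0:ℂ) 1))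
    (ht : Tendsto (fun j => ∫ z in ball (0:ℂ) 1, ‖F z - Fn (u j) z‖ ^ 2) atTop (𝓝 0)) :
    ∃ k : ℂ → ℂ, DifferentiableOn ℂ k (ball 0 1) ∧ (∀ z ∈ ball (0:ℂ) 1, ‖k z‖ ≤ C) ∧
      ∀ f : ℂ → ℂ, DifferentiableOn ℂ f (ball 0 1) →
        IntegrableOn (fun z => ‖f z‖ ^ ((4:ℝ) / 3)) (ball 0 1) →
        ∫ z in ball (0:ℂ) 1, k z * conj (f z) = ∫ z in ball (0:ℂ) 1, Ph (F z) * conj (f z) := by
  obtain ⟨hZ, hKC, -, -, -, -⟩ := hG
  obtain ⟨hFd, hFl, -⟩ := hF
  have hfin := fin_ball
  set μ : Measure ℂ := volume.restrict (ball (0:ℂ) 1) with hμ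
  have hae : ∀ᵐ z ∂μ, z ∈ ball (0:ℂ) 1 := ae_restrict_mem measurableSet_ball
  -- bounds
  obtain ⟨M, hM⟩ := ht.bddAbove_range
  have hM' : ∀ j, ∫ z, ‖F z - Fn (u j) z‖ ^ 2 ∂μ ≤ M := fun j => hM ⟨j, rfl⟩
  have hFnc : ∀ j, ContinuousOn (Fn (u j)) (closedBall 0 1) := by
    intro j
    unfold Fn
    apply ContinuousOn.inv₀ (((u j).continuous.pow 3).continuousOn)
    intro z hz
    exact pow_ne_zero _ (hZ j z (mem_closedBall_zero_iff.1 hz))
  have hci : ∀ g : ℂ → ℝ, ContinuousOn g (closedBall 0 1) → Integrable g μ := fun g hg =>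
    (hg.integrableOn_compact (isCompact_closedBall (0:ℂ) 1)).mono_set ball_subset_closedBall
  have hF2i : ∀ j, Integrable (fun z => ‖Fn (u j) z‖ ^ 2) μ := fun j =>
    hci (fun z => ‖Fn (u j) z‖ ^ 2) ((hFnc j).norm.pow 2)
  have hdi : ∀ j, Integrable (fun z => ‖F z - Fn (u j) z‖ ^ 2) μ := by
    intro j
    apply Integrable.mono' (g := fun z => 2 * ‖F z‖ ^ 2 + 2 * ‖Fn (u j) z‖ ^ 2)
      ((hi.const_mul 2).add ((hF2i j).const_mul 2))
    · apply ContinuousOn.aestronglyMeasurable _ measurableSet_ball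
      exact ((hFd.continuousOn.sub ((hFnc j).mono ball_subset_closedBall)).norm.pow 2)
    · apply Eventually.of_forall
      intro z
      rw [Real.norm_eq_abs, abs_of_nonneg (by positivity)]
      have h1 := norm_sub_le (F z) (Fn (u j) z)
      have h2 : ‖F z - Fn (u j) z‖ ^ 2 ≤ (‖F z‖ + ‖Fn (u j) z‖) ^ 2 := by gcongr
      nlinarith [sq_nonneg (‖F z‖ - ‖Fn (u j) z‖)]
  set B : ℝ := (∫ _z, (1:ℝ) ∂μ) + (2 * M + 2 * ∫ z, ‖F z‖ ^ 2 ∂μ) with hB
  have hFn2 : ∀ j, ∫ z, ‖Fn (u j) z‖ ^ 2 ∂μ ≤ 2 * M + 2 * ∫ z, ‖F z‖ ^ 2 ∂μ := by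
    intro j
    have h1 : ∫ z, ‖Fn (u j) z‖ ^ 2 ∂μ ≤
        ∫ z, (2 * ‖F z - Fn (u j) z‖ ^ 2 + 2 * ‖F z‖ ^ 2) ∂μ := by
      apply integral_mono (hF2i j) (((hdi j).const_mul 2).add (hi.const_mul 2))
      intro z
      show ‖Fn (u j) z‖ ^ 2 ≤ 2 * ‖F z - Fn (u j) z‖ ^ 2 + 2 * ‖F z‖ ^ 2
      have e : Fn (u j) z = F z - (F z - Fn (u j) z) := by ring
      have h2 := norm_sub_le (F z) (F z - Fn (u j) z)
      rw [← e] at h2
      have h3 : ‖Fn (u j) z‖ ^ 2 ≤ (‖F z‖ + ‖F z - Fn (u j) z‖) ^ 2 := by gcongr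
      nlinarith [sq_nonneg (‖F z‖ - ‖F z - Fn (u j) z‖)]
    rw [integral_add ((hdi j).const_mul 2) (hi.const_mul 2), integral_const_mul,
      integral_const_mul] at h1
    linarith [hM' j]
  have hgz : ∀ j, ∀ z ∈ ball (0:ℂ) 1, gg (u j) z = Ph (Fn (u j) z) := by
    intro j z hz
    exact gg_eq (hZ j z (mem_ball_zero_iff.1 hz).le)
  have hg4i : ∀ j, Integrable (fun z => ‖gg (u j) z‖ ^ (4:ℝ)) μ := by
    intro j
    apply hci
    exact (Real.continuous_rpow_const (by norm_num)).comp_continuousOn (gg_cont (hZ j)).norm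
  have h1i : Integrable (fun _ : ℂ => (1:ℝ)) μ := integrable_const _
  have hg4B : ∀ j, ∫ z, ‖gg (u j) z‖ ^ (4:ℝ) ∂μ ≤ B := by
    intro j
    have h1 : ∫ z, ‖gg (u j) z‖ ^ (4:ℝ) ∂μ ≤ ∫ z, (1 + ‖Fn (u j) z‖ ^ 2) ∂μ := by
      apply integral_mono_ae (hg4i j) (h1i.add (hF2i j))
      filter_upwards [hae] with z hz
      show ‖gg (u j) z‖ ^ (4:ℝ) ≤ 1 + ‖Fn (u j) z‖ ^ 2
      rw [hgz j z hz, Ph_pow]
      exact rpow_le_sq (norm_nonneg _)
    rw [integral_add h1i (hF2i j)] at h1
    linarith [hFn2 j]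
  have hPc : ContinuousOn (fun z => Ph (F z)) (ball 0 1) := Ph_cont.comp_continuousOn hFd.continuousOn
  have hP4 : ∀ z, ‖Ph (F z)‖ ^ (4:ℝ) ≤ 1 + ‖F z‖ ^ 2 := fun z => by
    rw [Ph_pow]; exact rpow_le_sq (norm_nonneg _)
  have hP4i : Integrable (fun z => ‖Ph (F z)‖ ^ (4:ℝ)) μ := by
    apply Integrable.mono' (h1i.add hi)
    · apply ContinuousOn.aestronglyMeasurable _ measurableSet_ball
      exact (Real.continuous_rpow_const (by norm_num)).comp_continuousOn hPc.norm
    · apply Eventually.of_forall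
      intro z
      rw [Real.norm_eq_abs, abs_of_nonneg (by positivity)]
      exact hP4 z
  have hM0 : 0 ≤ M := (integral_nonneg fun z => by positivity).trans (hM' 0)
  have hF0 : 0 ≤ ∫ z, ‖F z‖ ^ 2 ∂μ := integral_nonneg fun z => by positivity
  have hP4B : ∫ z, ‖Ph (F z)‖ ^ (4:ℝ) ∂μ ≤ B := by
    have h1 : ∫ z, ‖Ph (F z)‖ ^ (4:ℝ) ∂μ ≤ ∫ z, (1 + ‖F z‖ ^ 2) ∂μ :=
      integral_mono hP4i (h1i.add hi) hP4
    rw [integral_add h1i hi] at h1
    linarith
  have hpq : ((4:ℝ) / 3).HolderConjugate 4 := by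
    rw [Real.holderConjugate_iff]; norm_num
  have hweak : ∀ f : ℂ → ℂ, DifferentiableOn ℂ f (ball 0 1) →
      IntegrableOn (fun z => ‖f z‖ ^ ((4:ℝ) / 3)) (ball 0 1) →
      Tendsto (fun j => ∫ z in ball (0:ℂ) 1, gg (u j) z * conj (f z)) atTop
        (𝓝 (∫ z in ball (0:ℂ) 1, Ph (F z) * conj (f z))) := by
    intro f hf hfi
    apply weak_lim hpq (fun j => (gg_cont (hZ j)).mono ball_subset_closedBall) hPc hg4i hg4B
      hP4i hP4B _ hf.continuousOn hfi
    intro z hz
    have h1 := (Ph_cont.tendsto (F z)).comp (hFl z hz)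
    refine h1.congr fun j => ?_
    exact (hgz j z hz).symm
  -- integrability of analytic functions
  have hint : ∀ f : ℂ → ℂ, DifferentiableOn ℂ f (ball 0 1) →
      IntegrableOn (fun z => ‖f z‖ ^ ((4:ℝ) / 3)) (ball 0 1) → IntegrableOn f (ball 0 1) := by
    intro f hf hfi
    apply Integrable.mono' (h1i.add hfi)
    · exact hf.continuousOn.aestronglyMeasurable measurableSet_ball
    · apply Eventually.of_forall
      intro z
      simp only [Pi.add_apply]
      have h0 : 0 ≤ ‖f z‖ ^ ((4:ℝ) / 3) := by positivity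
      rcases le_total ‖f z‖ 1 with h | h
      · linarith
      · have h1 := Real.rpow_le_rpow_of_exponent_le h (show (1:ℝ) ≤ 4 / 3 by norm_num)
        rw [Real.rpow_one] at h1
        linarith
  -- convergence of the coefficients
  have hmono : ∀ n : ℕ, IntegrableOn (fun z : ℂ => ‖z ^ n‖ ^ ((4:ℝ) / 3)) (ball 0 1) := by
    intro n
    apply hci
    exact (Real.continuous_rpow_const (by norm_num)).comp_continuousOn
      ((continuous_pow n).norm.continuousOn)
  set κ : ℕ → ℂ := fun n => (((n + 1) / Real.pi : ℝ) : ℂ) *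
    ∫ z in ball (0:ℂ) 1, Ph (F z) * conj (z ^ n) with hκ
  have hpi : (Real.pi : ℂ) ≠ 0 := Complex.ofReal_ne_zero.2 Real.pi_ne_zero
  have hKc : ∀ j n, Kc (u j) n = (((n + 1) / Real.pi : ℝ) : ℂ) *
      ∫ z in ball (0:ℂ) 1, gg (u j) z * conj (z ^ n) := by
    intro j n
    have h1 := (t_KK (u j) (hZ j)).2.2 n
    have e : ∀ z : ℂ, gg (u j) z * conj (z ^ n) =
        conj z ^ n * (conj ((u j).eval z) / ((u j).eval z) ^ 2) := by
      intro z; unfold gg; rw [map_pow]; ring
    simp only [e]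
    rw [h1]
    have e1 : ((n:ℂ) + 1) ≠ 0 := by exact_mod_cast Nat.succ_ne_zero n
    push_cast
    field_simp
  have hKl : ∀ n, Tendsto (fun j => Kc (u j) n) atTop (𝓝 (κ n)) := by
    intro n
    have h1 := (hweak (fun z => z ^ n) (by fun_prop) (hmono n)).const_mul
      ((((n + 1) / Real.pi : ℝ) : ℂ))
    exact h1.congr fun j => (hKc j n).symm
  have hKb : ∀ j, (∀ z : ℂ, ‖z‖ ≤ 1 → ‖K (u j) z‖ ≤ C) ∧ ∀ n, ‖Kc (u j) n‖ ≤ C := fun j =>
    (t_KK (u j) (hZ j)).2.1 C (hKC j)
  have hκb : ∀ n, ‖κ n‖ ≤ C := fun n => le_of_tendsto' (hKl n).norm fun j => (hKb j).2 n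
  set k : ℂ → ℂ := fun z => ∑' n, κ n * z ^ n with hk
  have hkl : ∀ z ∈ ball (0:ℂ) 1, Tendsto (fun j => K (u j) z) atTop (𝓝 (k z)) := by
    intro z hz
    have hz1 : ‖z‖ < 1 := mem_ball_zero_iff.1 hz
    unfold K
    apply tendsto_tsum_of_dominated_convergence (bound := fun n => C * ‖z‖ ^ n)
    · exact (summable_geometric_of_lt_one (norm_nonneg _) hz1).mul_left _
    · intro n
      exact (hKl n).mul_const _
    · apply Eventually.of_forall
      intro j n
      rw [norm_mul, norm_pow]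
      exact mul_le_mul_of_nonneg_right ((hKb j).2 n) (by positivity)
  have hkb : ∀ z ∈ ball (0:ℂ) 1, ‖k z‖ ≤ C := fun z hz =>
    le_of_tendsto' (hkl z hz).norm fun j => (hKb j).1 z (mem_ball_zero_iff.1 hz).le
  refine ⟨k, ps_diff hκb, hkb, ?_⟩
  intro f hf hfi
  have hfin' := hint f hf hfi
  have h1 := hweak f hf hfi
  have h2 : ∀ j, ∫ z in ball (0:ℂ) 1, gg (u j) z * conj (f z) =
      ∫ z in ball (0:ℂ) 1, K (u j) z * conj (f z) := fun j => (pairK (hZ j) hf hfin').symm
  have hcf : AEStronglyMeasurable (fun z => conj (f z)) μ :=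
    Complex.continuous_conj.comp_aestronglyMeasurable hfin'.aestronglyMeasurable
  have h3 : Tendsto (fun j => ∫ z in ball (0:ℂ) 1, K (u j) z * conj (f z)) atTop
      (𝓝 (∫ z in ball (0:ℂ) 1, k z * conj (f z))) := by
    apply tendsto_integral_of_dominated_convergence (fun z => C * ‖f z‖)
    · intro j
      obtain ⟨C', ρ, hρ, hd⟩ := (t_KK (u j) (hZ j)).1
      have hc : ContinuousOn (K (u j)) (closedBall 0 1) := ps_cont (summable_decay hρ hd)
      exact ((hc.mono ball_subset_closedBall).aestronglyMeasurable measurableSet_ball).mul hcf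
    · exact hfin'.norm.const_mul _
    · intro j
      filter_upwards [hae] with z hz
      rw [norm_mul, RCLike.norm_conj]
      exact mul_le_mul_of_nonneg_right ((hKb j).1 z (mem_ball_zero_iff.1 hz).le) (norm_nonneg _)
    · filter_upwards [hae] with z hz
      exact (hkl z hz).mul_const _
  exact tendsto_nhds_unique h3 (h1.congr h2)

end Pool.Agent.U209.BX
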