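import Pool.Agent.U209.BX.Stm

set_option autoImplicit false

namespace Pool.Agent.U209.BX

open Polynomial Complex Finset Filter Topology MeasureTheory ComplexConjugate Metric

theorem t_STEP (hE : S_EXP) (hL : S_LIM) (hA : S_STA) (hB : S_STB) (hC : S_STC) : S_STEP := by
  intro u hu z0 hz0 b hb ε hε
  obtain ⟨N, ha, hbd, hc⟩ := hA u hu z0 hz0 b hb (ε / 4) (by positivity)
  set v : ℂ[X] := C b * bump z0 N with hv
  have hZ := (hE u v hu ha).1
  obtain ⟨Q0, hQ0⟩ := hL u v hu ha (ε / 4) (by positivity)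
  obtain ⟨Q1, hQ1⟩ := hB u hu z0 hz0 b N (ε / 4) (by positivity)
  obtain ⟨Q2, hQ2⟩ := hC u hu z0 hz0 b hb N ε hε
  set Q := max Q0 (max Q1 Q2) with hQ
  have h0 : Q0 ≤ Q := le_max_left _ _
  have h1 : Q1 ≤ Q := (le_max_left _ _).trans (le_max_right _ _)
  have h2 : Q2 ≤ Q := (le_max_right _ _).trans (le_max_right _ _)
  obtain ⟨z1, hz1, e1, e2, e3, e4⟩ := hQ1 Q h1
  obtain ⟨q, α, hq, e5⟩ := hQ2 Q h2
  have hlim := hQ0 Q h0
  refine ⟨u + X ^ Q * v, z1, q, α, hq, hz1, hZ Q, e1.trans (by linarith), ?_, ?_, (hc Q).trans (by linarith), e5⟩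
  · have h3 := hlim z1 hz1
    have e : K (u + X ^ Q * v) z1 - K u z0 + 2 * conj (u.eval z0) / (u.eval z0) ^ 3 * b =
        (K (u + X ^ Q * v) z1 - K u z1 +
          2 * conj (u.eval z1) / (u.eval z1) ^ 3 * (z1 ^ Q * v.eval z1)) + (K u z1 - K u z0) -
        (2 * conj (u.eval z1) / (u.eval z1) ^ 3 * (z1 ^ Q * v.eval z1) -
          2 * conj (u.eval z0) / (u.eval z0) ^ 3 * b) := by ring
    rw [e]
    have h4 := norm_sub_le ((K (u + X ^ Q * v) z1 - K u z1 +
          2 * conj (u.eval z1) / (u.eval z1) ^ 3 * (z1 ^ Q * v.eval z1)) + (K u z1 - K u z0))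
        (2 * conj (u.eval z1) / (u.eval z1) ^ 3 * (z1 ^ Q * v.eval z1) -
          2 * conj (u.eval z0) / (u.eval z0) ^ 3 * b)
    have h5 := norm_add_le (K (u + X ^ Q * v) z1 - K u z1 +
          2 * conj (u.eval z1) / (u.eval z1) ^ 3 * (z1 ^ Q * v.eval z1)) (K u z1 - K u z0)
    linarith
  · intro z hz
    have h3 := hlim z hz
    have h4 := hbd z hz
    have hn : ‖2 * conj (u.eval z) / (u.eval z) ^ 3 * (z ^ Q * v.eval z)‖ =
        2 * ‖v.eval z‖ / ‖u.eval z‖ ^ 2 := by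
      have hne : ‖u.eval z‖ ≠ 0 := norm_ne_zero_iff.2 (hu z hz.le)
      rw [norm_mul, norm_div, norm_mul, norm_mul, norm_pow, norm_pow, hz, RCLike.norm_conj]
      simp
      field_simp
    have e : K (u + X ^ Q * v) z = (K (u + X ^ Q * v) z - K u z +
          2 * conj (u.eval z) / (u.eval z) ^ 3 * (z ^ Q * v.eval z)) + K u z -
          2 * conj (u.eval z) / (u.eval z) ^ 3 * (z ^ Q * v.eval z) := by ring
    rw [e]
    have h5 := norm_sub_le ((K (u + X ^ Q * v) z - K u z +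
          2 * conj (u.eval z) / (u.eval z) ^ 3 * (z ^ Q * v.eval z)) + K u z)
          (2 * conj (u.eval z) / (u.eval z) ^ 3 * (z ^ Q * v.eval z))
    have h6 := norm_add_le (K (u + X ^ Q * v) z - K u z +
          2 * conj (u.eval z) / (u.eval z) ^ 3 * (z ^ Q * v.eval z)) (K u z)
    rw [hn] at h5
    linarith

end Pool.Agent.U209.BX
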